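import Mathlib
import Pool.Agent.Y193.CS.PMain
import Pool.Agent.TH735.QM.PolyBorel

/-! Curves given by exponentials of entire functions, and tori. -/

set_option autoImplicit false

open Polynomial

namespace Pool.Agent.X325.HS

open Pool.Agent.Y193.CS Pool.Agent.Y193.FG

/-- `f` is a finite sum of products `P(z) exp(h(z))` with polynomials `P` and entire functions
`h` -/
def IsExpSum (f : ℂ → ℂ) : Prop :=
  ∃ (s : ℕ) (P : Fin s → Polynomial ℂ) (h : Fin s → ℂ → ℂ), (∀ i, Differentiable ℂ (h i)) ∧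
    ∀ z, f z = ∑ i, (P i).eval z * Complex.exp (h i z)

/-- functions which vanish at the origin are combinations of independent ones with integral
coefficients -/
theorem exists_lattice' {ι : Type} [Finite ι] (Q : ι → ℂ → ℂ) (hQ : ∀ i, Q i 0 = 0)
    (hd : ∀ i, Differentiable ℂ (Q i)) :
    ∃ (m : ℕ) (μ : Fin m → ℂ → ℂ) (n : ι → Fin m → ℤ), (∀ j, Differentiable ℂ (μ j)) ∧
      (∀ i, Q i = ∑ j, n i j • μ j) ∧
      ∀ β : Fin m → ℤ, (∃ c, ∀ z, (∑ j, β j • μ j) z = c) → β = 0 := by
  classical
  let Λ : Submodule ℤ (ℂ → ℂ) := Submodule.span ℤ (Set.range Q)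
  have hfin : Module.Finite ℤ Λ := Module.Finite.span_of_finite ℤ (Set.finite_range Q)
  have htf : Module.IsTorsionFree ℤ Λ := inferInstance
  have hfree : Module.Free ℤ Λ := inferInstance
  let b := Module.finBasis ℤ Λ
  have hΛ0 : ∀ x ∈ Λ, x 0 = 0 ∧ Differentiable ℂ x := by
    intro x hx
    induction hx using Submodule.span_induction with
    | mem x h => obtain ⟨i, rfl⟩ := h; exact ⟨hQ i, hd i⟩
    | zero => exact ⟨rfl, differentiable_const _⟩
    | add x y _ _ hx hy => exact ⟨by rw [Pi.add_apply, hx.1, hy.1, add_zero], hx.2.add hy.2⟩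
    | smul a x _ hx =>
      refine ⟨by rw [Pi.smul_apply, hx.1, smul_zero], ?_⟩
      have h1 : a • x = fun z => (a : ℂ) * x z := by
        funext z
        rw [Pi.smul_apply, zsmul_eq_mul]
      rw [h1]
      exact (differentiable_const _).mul hx.2
  refine ⟨_, fun j => (b j : ℂ → ℂ), fun i j => b.repr ⟨Q i, Submodule.subset_span ⟨i, rfl⟩⟩ j,
    fun j => (hΛ0 _ (b j).2).2, fun i => ?_, fun β hβ => ?_⟩
  · have h := congrArg Subtype.val (b.sum_repr ⟨Q i, Submodule.subset_span ⟨i, rfl⟩⟩)
    rw [AddSubmonoidClass.coe_finsetSum] at h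
    exact h.symm
  · have h1 : (∑ j, β j • (b j : ℂ → ℂ)) = ((∑ j, β j • b j : Λ) : ℂ → ℂ) := by
      rw [AddSubmonoidClass.coe_finsetSum]
      rfl
    have h2 : (∑ j, β j • b j : Λ) = 0 := by
      apply Subtype.ext
      obtain ⟨c, hc⟩ := hβ
      rw [h1] at hc
      have h3 := (hΛ0 _ (∑ j, β j • b j : Λ).2).1
      have h4 : c = 0 := by rw [← hc 0]; exact h3
      funext z
      rw [hc z, h4]
      rfl
    exact _root_.funext (fun j => Fintype.linearIndependent_iff.mp b.linearIndependent β h2 j)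

section

variable {m : ℕ}

/-- the curve given by the exponentials of functions -/
noncomputable def gam' (μ : Fin m → ℂ → ℂ) (z : ℂ) : TT m :=
  ⟨fun j => Complex.exp (μ j z), fun j => Complex.exp_ne_zero _⟩

theorem prod_gam' (μ : Fin m → ℂ → ℂ) (z : ℂ) (β : Fin m → ℤ) :
    ∏ j, (gam' μ z).1 j ^ β j = Complex.exp ((∑ j, β j • μ j) z) := by
  rw [Finset.sum_apply, Complex.exp_sum]
  refine Finset.prod_congr rfl (fun j _ => ?_)
  show Complex.exp (μ j z) ^ β j = _
  rw [← Complex.exp_int_mul, Pi.smul_apply, zsmul_eq_mul]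

theorem eq_zero_of_curve' {μ : Fin m → ℂ → ℂ} (hd : ∀ j, Differentiable ℂ (μ j))
    (hμ : ∀ β : Fin m → ℤ, (∃ c, ∀ z, (∑ j, β j • μ j) z = c) → β = 0) (L : LL m)
    (h : ∀ z, evL z (gam' μ z) L = 0) : L = 0 := by
  classical
  have h1 : ∀ β ∈ L.coeff.support, L.coeff β = 0 := by
    intro β₀ hβ₀
    have key := Pool.Agent.TH735.QM.poly_borel (ι := L.coeff.support)
      (fun β => (∑ j, β.1 j • μ j)) (fun β => by
        have h2 : (∑ j, β.1 j • μ j) = fun z => ∑ j, (β.1 j : ℂ) * μ j z := by
          funext z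
          rw [Finset.sum_apply]
          exact Finset.sum_congr rfl fun j _ => by rw [Pi.smul_apply, zsmul_eq_mul]
        rw [h2]
        exact Differentiable.fun_sum fun j _ => (differentiable_const _).mul (hd j))
      (fun β => L.coeff β.1) (fun β => if β.1 = β₀ then 1 else 0) (by
        intro i j c hc
        by_cases hij : i = j
        · subst hij
          have h3 : c = 0 := by
            have := hc 0
            exact (left_eq_add.1 this)
          rw [h3, Complex.exp_zero, one_mul]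
        · exfalso
          apply hij
          apply Subtype.ext
          have h3 : (∑ k, i.1 k • μ k) - (∑ k, j.1 k • μ k) = ∑ k, (i.1 - j.1) k • μ k := by
            rw [← Finset.sum_sub_distrib]
            exact Finset.sum_congr rfl (fun k _ => by rw [Pi.sub_apply, sub_smul])
          refine sub_eq_zero.mp (hμ _ ⟨c, fun z => ?_⟩)
          rw [← h3, Pi.sub_apply, hc z]
          ring) (fun z => by
        have h5 := Finset.sum_coe_sort L.coeff.support
          (fun β => (L.coeff β).eval z * ∏ j, (gam' μ z).1 j ^ β j)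
        rw [← h z, evL_eq, ← h5]
        exact Finset.sum_congr rfl (fun β _ => by rw [prod_gam']))
    rw [Finset.sum_eq_single ⟨β₀, hβ₀⟩ (fun b _ hb => by
      rw [if_neg (fun h0 => hb (Subtype.ext h0)), C_0, zero_mul]) (fun h0 =>
        absurd (Finset.mem_univ _) h0), if_pos rfl, C_1, one_mul] at key
    exact key
  rw [← AddMonoidAlgebra.sum_coeff_single L, Finsupp.sum]
  refine Finset.sum_eq_zero (fun β hβ => ?_)
  rw [h1 β hβ, AddMonoidAlgebra.single_zero]

end

theorem exp_lift' {I : Type} [Fintype I] (f : I → ℂ → ℂ) (hf : ∀ l, IsExpSum (f l)) :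
    ∃ (k : ℕ) (F : I → MvPolynomial (Fin k ⊕ Fin k) ℂ) (γ : ℂ → TT k),
      (∀ l z, f l z = MvPolynomial.eval (fun i => wT k i (γ z)) (F l)) ∧
      ∀ G : MvPolynomial I ℂ, (∀ z, MvPolynomial.eval (fun l => f l z) G = 0) →
        ∀ t : TT k, MvPolynomial.eval (fun l => MvPolynomial.eval (fun i => wT k i t) (F l)) G
          = 0 := by
  classical
  choose s P Q hQd hfz using hf
  obtain ⟨m, μ, n, hμd, hn, hμ⟩ := exists_lattice' (ι := Σ l : I, Fin (s l))
    (fun a z => Q a.1 a.2 z - Q a.1 a.2 0) (fun a => by simp)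
    (fun a => (hQd a.1 a.2).sub (differentiable_const _))
  let L : I → LL m := fun l => ∑ i : Fin (s l), AddMonoidAlgebra.single (n ⟨l, i⟩)
    (C (Complex.exp (Q l i 0)) * P l i)
  have hL : ∀ l z, evL z (gam' μ z) (L l) = f l z := by
    intro l z
    rw [hfz, map_sum]
    refine Finset.sum_congr rfl (fun i _ => ?_)
    rw [evL_single, prod_gam', ← hn ⟨l, i⟩, eval_mul, eval_C, Complex.exp_sub]
    have := Complex.exp_ne_zero (Q l i 0)
    field_simp
  choose F hF using fun l => exists_F (L l)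
  choose t₀ ht₀ ht₁ using exists_joukowski
  let γ : ℂ → TT (m + 1) := fun z => ⟨Fin.cons (t₀ z) (gam' μ z).1, fun j => by
    refine Fin.cases ?_ (fun j => ?_) j
    · exact ht₀ z
    · exact (gam' μ z).2 j⟩
  have hγ : ∀ z, tailT (γ z) = gam' μ z := fun z => Subtype.ext (_root_.funext (fun j => rfl))
  refine ⟨m + 1, F, γ, fun l z => ?_, fun G hG t => ?_⟩
  · rw [hF, hγ]
    have h0 : (γ z).1 0 = t₀ z := rfl
    rw [h0, ht₁, hL]
  · have h1 : MvPolynomial.eval₂ (kap m) L G = 0 := by
      refine eq_zero_of_curve' hμd hμ _ (fun z => ?_)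
      rw [evL_eval₂]
      have h2 : (fun l => evL z (gam' μ z) (L l)) = fun l => f l z :=
        _root_.funext (fun l => hL l z)
      rw [h2]
      exact hG z
    have h2 : (fun l => MvPolynomial.eval (fun i => wT (m + 1) i t) (F l)) =
        fun l => evL (t.1 0 + (t.1 0)⁻¹) (tailT t) (L l) := _root_.funext (fun l => hF l t)
    rw [h2, ← evL_eval₂, h1, map_zero]

end Pool.Agent.X325.HS
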