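import Mathlib
import Pool.Agent.X325.HS.Lift

/-! Chains of Zariski closures of entire curves and of images of test varieties: definitions. -/

set_option autoImplicit false

open Topology Set

namespace Pool.Agent.X325.HS

open Pool.Agent.Y193.CS Pool.Agent.Y193.FG

/-- the curve `φ : ℂ → X`, `X = {p_i = 0 for all i, q_j ≠ 0 for some j}`, has homogeneous
coordinates `f_l` in the ring of the functions `∑ P(z) exp(h(z))`, `P` polynomial, `h` entire, such
that the functions `q_j(f) f_l` generate the unit ideal of this ring -/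
def IsEntCurve {n : ℕ} {ι κ : Type} [Fintype κ] (p : ι → MvPolynomial (Fin (n + 1)) ℂ)
    (q : κ → MvPolynomial (Fin (n + 1)) ℂ) (φ : ℂ → CP n) : Prop :=
  (∀ z, φ z ∈ QP p q) ∧ ∃ (f : Fin (n + 1) → ℂ → ℂ) (g : κ → Fin (n + 1) → ℂ → ℂ),
    (∀ l, IsExpSum (f l)) ∧ (∀ j l, IsExpSum (g j l)) ∧
    (∀ z, ∑ j, ∑ l, g j l z * MvPolynomial.eval (fun i => f i z) (q j) * f l z = 1) ∧
    ∀ z (h : (fun l => f l z) ≠ 0), φ z = CP.mk _ h

/-- `x` and `x'` are points of `X` in the Zariski closure of a curve as above -/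
def EntLinked {n : ℕ} {ι κ : Type} [Fintype κ] (p : ι → MvPolynomial (Fin (n + 1)) ℂ)
    (q : κ → MvPolynomial (Fin (n + 1)) ℂ) (x x' : CP n) : Prop :=
  x ∈ QP p q ∧ x' ∈ QP p q ∧ ∃ φ : ℂ → CP n, IsEntCurve p q φ ∧ InClosure (range φ) x ∧
    InClosure (range φ) x'

/-- `x` and `x'` are points of `X` in the Zariski closure of an entire curve as above, or in the
Zariski closure of the image of a regular map `(ℂ*)^k → X`, or in the image of a regular map
`Y k → X` of a test variety -/
def MixedLinked {n : ℕ} {ι κ : Type} [Fintype κ] (p : ι → MvPolynomial (Fin (n + 1)) ℂ)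
    (q : κ → MvPolynomial (Fin (n + 1)) ℂ) {K : Type} {r : K → ℕ} (Y : ∀ k, Set (Fin (r k) → ℂ))
    (x x' : CP n) : Prop :=
  EntLinked p q x x' ∨ TorusLinked (QP p q) x x' ∨ Linked (QP p q) Y x x'

end Pool.Agent.X325.HS
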