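import Mathlib
import Pool.Agent.Y193.CS.PMain

/-! The step of a chain given by the closure of the image of a torus, for any class of groups. -/

set_option autoImplicit false

open Topology Set

namespace Pool.Agent.X325.HS

open Pool.Agent.Y193.CS Pool.Agent.Y193.FG

section

variable {n : ℕ} {ι μ : Type} [Fintype μ]

theorem goodSet_parc' (𝒱 : PClass) {p : ι → MvPolynomial (Fin (n + 1)) ℂ}
    {q : μ → MvPolynomial (Fin (n + 1)) ℂ} (hp : ∀ i, ∃ d, (p i).IsHomogeneous d)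
    (hq : ∀ j, ∃ d, (q j).IsHomogeneous d) {ρ : C(QA (PT p) (QT q), QP p q)}
    (hρ : ∀ (v η : Fin (n + 1) → ℂ) (hv : v ≠ 0) (h : outer v η ∈ QA (PT p) (QT q)),
        ∑ i, v i * η i = 1 → (ρ ⟨outer v η, h⟩).1 = CP.mk v hv) (κ : Code)
    {A : Set (Fin (n + 1) × Fin (n + 1) → ℂ)} (hA : GoodSet 𝒱 (QA (PT p) (QT q)) ρ A)
    (hT : ∀ (k : ℕ) (φ : C(TT k, QP p q)) (y : TT k), 𝒱.C (FundamentalGroup.map φ y).range) :
    GoodSet 𝒱 (QA (PT p) (QT q)) ρ (parcSet p q κ A) := by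
  classical
  obtain ⟨J, hJ, W, hW, e, he, hcov, hkill⟩ := hA
  let X : Set (Fin (n + 1) → ℂ) := {v | ∃ hv : v ≠ 0, CP.mk v hv ∈ QP p q}
  let π : C(X, QP p q) := ⟨fun v => ⟨CP.mk v.1 v.2.choose, v.2.choose_spec⟩,
    Continuous.subtype_mk (continuous_mk continuous_subtype_val (fun v => v.2.choose)) _⟩
  have hπ : ∀ (v : X) (hv : v.1 ≠ 0), (π v).1 = CP.mk v.1 hv := fun v hv => rfl
  let T : Type := Fin (n + 1)
  let E : Type := Fin κ.k → Fin (2 * κ.d + 1)
  let J' : Type := J ⊕ ((T × E) ⊕ (((μ × T) × E) ⊕ (ArcJ T κ ⊕ (ArcJ T κ ⊕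
    (T ⊕ (T ⊕ (T ⊕ (T ⊕ μ))))))))
  let cw : (J' → ℂ) → J → ℂ := fun w j => w (Sum.inl j)
  let cc : (J' → ℂ) → T → E → ℂ := fun w l α => w (Sum.inr (Sum.inl (l, α)))
  let cg : (J' → ℂ) → μ × T → E → ℂ := fun w l α => w (Sum.inr (Sum.inr (Sum.inl (l, α))))
  let cP : (J' → ℂ) → Fin κ.k → Fin (κ.e + 1) → ℂ := fun w j i =>
    w (Sum.inr (Sum.inr (Sum.inr (Sum.inl (Sum.inl (j, i))))))
  let cu : (J' → ℂ) → Fin κ.k → ℂ := fun w j =>
    w (Sum.inr (Sum.inr (Sum.inr (Sum.inl (Sum.inr (Sum.inl j))))))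
  let cR : (J' → ℂ) → T → Fin (κ.e' + 1) → ℂ := fun w l i =>
    w (Sum.inr (Sum.inr (Sum.inr (Sum.inl (Sum.inr (Sum.inr (l, i)))))))
  let cP' : (J' → ℂ) → Fin κ.k → Fin (κ.e + 1) → ℂ := fun w j i =>
    w (Sum.inr (Sum.inr (Sum.inr (Sum.inr (Sum.inl (Sum.inl (j, i)))))))
  let cu' : (J' → ℂ) → Fin κ.k → ℂ := fun w j =>
    w (Sum.inr (Sum.inr (Sum.inr (Sum.inr (Sum.inl (Sum.inr (Sum.inl j)))))))
  let cR' : (J' → ℂ) → T → Fin (κ.e' + 1) → ℂ := fun w l i =>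
    w (Sum.inr (Sum.inr (Sum.inr (Sum.inr (Sum.inl (Sum.inr (Sum.inr (l, i))))))))
  let cv : (J' → ℂ) → T → ℂ := fun w l =>
    w (Sum.inr (Sum.inr (Sum.inr (Sum.inr (Sum.inr (Sum.inl l))))))
  let cn : (J' → ℂ) → T → ℂ := fun w l =>
    w (Sum.inr (Sum.inr (Sum.inr (Sum.inr (Sum.inr (Sum.inr (Sum.inl l)))))))
  let cv' : (J' → ℂ) → T → ℂ := fun w l =>
    w (Sum.inr (Sum.inr (Sum.inr (Sum.inr (Sum.inr (Sum.inr (Sum.inr (Sum.inl l))))))))
  let cn' : (J' → ℂ) → T → ℂ := fun w l =>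
    w (Sum.inr (Sum.inr (Sum.inr (Sum.inr (Sum.inr (Sum.inr (Sum.inr (Sum.inr (Sum.inl l)))))))))
  let ch : (J' → ℂ) → μ → ℂ := fun w j =>
    w (Sum.inr (Sum.inr (Sum.inr (Sum.inr (Sum.inr (Sum.inr (Sum.inr (Sum.inr (Sum.inr j)))))))))
  let W' : Set (J' → ℂ) := {w | cw w ∈ W} ∩
    (⋂ t : TT κ.k, ⋂ i, {w | MvPolynomial.eval (fun l => lev (cc w l) t.1) (p i) = 0}) ∩
    (⋂ t : TT κ.k, {w | (∑ b, lev (cg w b) t.1 * MvPolynomial.eval (fun l => lev (cc w l) t.1) (q b.1)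
      * lev (cc w b.2) t.1) - 1 = 0}) ∩
    {w | (∑ i, cv w i * cn w i) - 1 = 0} ∩
    (⋂ b : T × T, {w | cv w b.1 * cn w b.2 - MvPolynomial.eval (cw w) (e b) = 0}) ∩
    {w | ArcOK κ.a (cc w) (cP w) (cu w) (cR w) (cv w)} ∩
    {w | (∑ i, cv' w i * cn' w i) - 1 = 0} ∩
    {w | ArcOK κ.a' (cc w) (cP' w) (cu' w) (cR' w) (cv' w)} ∩
    (⋂ i, {w | MvPolynomial.eval (cv' w) (p i) = 0}) ∩
    {w | (∑ j, ch w j * MvPolynomial.eval (cv' w) (q j)) - 1 = 0}
  have hlev : ∀ (t : Fin κ.k → ℂ) (l : T), PolyF (fun w : J' → ℂ => lev (cc w l) t) := fun t l =>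
    polyF_lev (fun α => PolyF.coord _) t
  have hW' : AlgSet W' := by
    refine ((((((((AlgSet.inter ?_ ?_).inter ?_).inter ?_).inter ?_).inter ?_).inter ?_).inter
      ?_).inter ?_).inter ?_
    · exact hW.preimage (fun j => PolyF.coord _)
    · exact AlgSet.iInter (fun t => AlgSet.iInter (fun i => AlgSet.zero
        (PolyF.comp (fun l => hlev t.1 l) _)))
    · exact AlgSet.iInter (fun t => AlgSet.zero (PolyF.sub (PolyF.sum _ (fun b =>
        ((polyF_lev (fun α => PolyF.coord _) t.1).mul (PolyF.comp (fun l => hlev t.1 l) _)).mul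
          (hlev t.1 b.2))) (PolyF.const 1)))
    · exact AlgSet.zero (PolyF.sub (PolyF.sum _ (fun i => (PolyF.coord _).mul (PolyF.coord _)))
        (PolyF.const 1))
    · exact AlgSet.iInter (fun b => AlgSet.zero (PolyF.sub ((PolyF.coord _).mul (PolyF.coord _))
        (PolyF.comp (fun j => PolyF.coord _) _)))
    · exact algSet_arcOK κ.a (fun l α => PolyF.coord _) (fun j i => PolyF.coord _)
        (fun j => PolyF.coord _) (fun l i => PolyF.coord _) (fun l => PolyF.coord _)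
    · exact AlgSet.zero (PolyF.sub (PolyF.sum _ (fun i => (PolyF.coord _).mul (PolyF.coord _)))
        (PolyF.const 1))
    · exact algSet_arcOK κ.a' (fun l α => PolyF.coord _) (fun j i => PolyF.coord _)
        (fun j => PolyF.coord _) (fun l i => PolyF.coord _) (fun l => PolyF.coord _)
    · exact AlgSet.iInter (fun i => AlgSet.zero (PolyF.comp (fun l => PolyF.coord _) _))
    · exact AlgSet.zero (PolyF.sub (PolyF.sum _ (fun j => (PolyF.coord _).mul
        (PolyF.comp (fun l => PolyF.coord _) _))) (PolyF.const 1))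
  have hmem : ∀ w : J' → ℂ, w ∈ W' ↔ (cw w ∈ W ∧
      (∀ t ∈ TT κ.k, ∀ i, MvPolynomial.eval (fun l => lev (cc w l) t) (p i) = 0) ∧
      (∀ t ∈ TT κ.k, ∑ b, lev (cg w b) t * MvPolynomial.eval (fun l => lev (cc w l) t) (q b.1) *
        lev (cc w b.2) t = 1) ∧
      ∑ i, cv w i * cn w i = 1 ∧ (∀ b : T × T, cv w b.1 * cn w b.2 = MvPolynomial.eval (cw w) (e b)) ∧
      ArcOK κ.a (cc w) (cP w) (cu w) (cR w) (cv w) ∧
      ∑ i, cv' w i * cn' w i = 1 ∧ ArcOK κ.a' (cc w) (cP' w) (cu' w) (cR' w) (cv' w) ∧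
      (∀ i, MvPolynomial.eval (cv' w) (p i) = 0) ∧
      ∑ j, ch w j * MvPolynomial.eval (cv' w) (q j) = 1) := by
    intro w
    constructor
    · rintro ⟨⟨⟨⟨⟨⟨⟨⟨⟨h1, h2⟩, h3⟩, h4⟩, h5⟩, h6⟩, h7⟩, h8⟩, h9⟩, h10⟩
      rw [mem_iInter] at h2 h3 h5 h9
      refine ⟨h1, fun t ht i => ?_, fun t ht => sub_eq_zero.mp (h3 ⟨t, ht⟩), sub_eq_zero.mp h4,
        fun b => sub_eq_zero.mp (h5 b), h6, sub_eq_zero.mp h7, h8, h9, sub_eq_zero.mp h10⟩
      have := h2 ⟨t, ht⟩
      rw [mem_iInter] at this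
      exact this i
    · rintro ⟨h1, h2, h3, h4, h5, h6, h7, h8, h9, h10⟩
      refine ⟨⟨⟨⟨⟨⟨⟨⟨⟨h1, ?_⟩, ?_⟩, sub_eq_zero.mpr h4⟩, ?_⟩, h6⟩, sub_eq_zero.mpr h7⟩, h8⟩, ?_⟩,
        sub_eq_zero.mpr h10⟩
      · rw [mem_iInter]
        intro t
        rw [mem_iInter]
        exact fun i => h2 t.1 t.2 i
      · rw [mem_iInter]
        exact fun t => sub_eq_zero.mpr (h3 t.1 t.2)
      · rw [mem_iInter]
        exact fun b => sub_eq_zero.mpr (h5 b)
      · rw [mem_iInter]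
        exact h9
  -- the points of the cone
  have hXof : ∀ v : T → ℂ, v ≠ 0 → (∀ i, MvPolynomial.eval v (p i) = 0) →
      (∃ j, MvPolynomial.eval v (q j) ≠ 0) → v ∈ X := fun v hv h1 h2 =>
    ⟨hv, (mem_QP hp hq).mpr ⟨h1, h2⟩⟩
  have hXt : ∀ w ∈ W', ∀ t ∈ TT κ.k, (fun l => lev (cc w l) t) ∈ X := by
    intro w hw t ht
    obtain ⟨-, h2, h3, -⟩ := (hmem w).mp hw
    have h4 := h3 t ht
    refine hXof _ (fun h0 => ?_) (h2 t ht) ?_
    · rw [Finset.sum_eq_zero (fun b _ => by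
        rw [show lev (cc w b.2) t = 0 from congrFun h0 b.2, mul_zero])] at h4
      exact zero_ne_one h4
    · by_contra hcon
      push Not at hcon
      rw [Finset.sum_eq_zero (fun b _ => by rw [hcon b.1, mul_zero, zero_mul])] at h4
      exact zero_ne_one h4
  have hXv' : ∀ w ∈ W', cv' w ∈ X := by
    intro w hw
    obtain ⟨-, -, -, -, -, -, h7, -, h9, h10⟩ := (hmem w).mp hw
    refine hXof _ (ne_zero_of_dot h7) h9 ?_
    by_contra hcon
    push Not at hcon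
    rw [Finset.sum_eq_zero (fun b _ => by rw [hcon b, mul_zero])] at h10
    exact zero_ne_one h10
  have hXv : ∀ w ∈ W', cv w ∈ X := by
    intro w hw
    obtain ⟨h1, -, -, h4, h5, -⟩ := (hmem w).mp hw
    have h6 : outer (cv w) (cn w) = fun b => MvPolynomial.eval (cw w) (e b) := funext (fun b => h5 b)
    obtain ⟨v₁, η₁, hv₁, k1, k2, k3⟩ := exists_outer hp hq (he _ h1)
    refine ⟨ne_zero_of_dot h4, ?_⟩
    rw [outer_inj (ne_zero_of_dot h4) hv₁ h4 (h6.trans k3)]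
    exact k1
  let e' : T × T → MvPolynomial J' ℂ := fun b =>
    MvPolynomial.X (Sum.inr (Sum.inr (Sum.inr (Sum.inr (Sum.inr (Sum.inr (Sum.inr (Sum.inl b.1))))))))
    * MvPolynomial.X (Sum.inr (Sum.inr (Sum.inr (Sum.inr (Sum.inr (Sum.inr (Sum.inr (Sum.inr
        (Sum.inl b.2)))))))))
  have he'ev : ∀ (w : J' → ℂ), (fun l => MvPolynomial.eval w (e' l)) = outer (cv' w) (cn' w) :=
    fun w => funext (fun l => by
      simp only [e', map_mul, MvPolynomial.eval_X]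
      rfl)
  have he' : ∀ w ∈ W', (fun i => MvPolynomial.eval w (e' i)) ∈ QA (PT p) (QT q) := by
    intro w hw
    rw [he'ev]
    exact outer_mem hp hq ((hmem w).mp hw).2.2.2.2.2.2.1 (hXv' w hw).choose_spec
  have hfinJ : Finite J' := inferInstance
  refine ⟨J', hfinJ, W', hW', e', he', ?_, ?_⟩
  · rintro M' ⟨c, g, P, u, R, P', u', R', v, η, v', η', h, h2, h3, h4, hvA, h6, h7, rfl, h8, h9,
      h10⟩
    obtain ⟨w, hw, hwe⟩ := hcov _ hvA
    let w' : J' → ℂ := Sum.elim w (Sum.elim (fun a => c a.1 a.2) (Sum.elim (fun a => g a.1 a.2)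
      (Sum.elim (Sum.elim (fun a => P a.1 a.2) (Sum.elim u (fun a => R a.1 a.2)))
      (Sum.elim (Sum.elim (fun a => P' a.1 a.2) (Sum.elim u' (fun a => R' a.1 a.2)))
      (Sum.elim v (Sum.elim η (Sum.elim v' (Sum.elim η' h))))))))
    exact ⟨w', (hmem w').mpr ⟨hw, h2, h3, h4, fun b => (congrFun hwe b).symm, h6, h7, h8, h9, h10⟩,
      he'ev w'⟩
  · intro w
    have hcoord : ∀ j : J', Continuous (fun w : W' => w.1 j) := fun j =>
      (continuous_apply j).comp continuous_subtype_val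
    let pr : C(W', W) := ⟨fun w => ⟨cw w.1, ((hmem w.1).mp w.2).1⟩,
      Continuous.subtype_mk (continuous_pi (fun j => hcoord _)) _⟩
    obtain ⟨b, H, hH0, hH1⟩ := arc_homotopy (X := X) κ.a (W := W') (c := fun w => cc w.1)
      (P := fun w => cP w.1) (u := fun w => cu w.1) (R := fun w => cR w.1)
      (x := fun w => cv w.1) (fun w => hXt w.1 w.2) (fun w => hXv w.1 w.2)
      (fun j i => hcoord _) (fun j => hcoord _) (fun l i => hcoord _) (fun l => hcoord _)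
      (fun w => ((hmem w.1).mp w.2).2.2.2.2.2.1)
    obtain ⟨b', H', hH'0, hH'1⟩ := arc_homotopy (X := X) κ.a' (W := W') (c := fun w => cc w.1)
      (P := fun w => cP' w.1) (u := fun w => cu' w.1) (R := fun w => cR' w.1)
      (x := fun w => cv' w.1) (fun w => hXt w.1 w.2) (fun w => hXv' w.1 w.2)
      (fun j i => hcoord _) (fun j => hcoord _) (fun l i => hcoord _) (fun l => hcoord _)
      (fun w => ((hmem w.1).mp w.2).2.2.2.2.2.2.2.1)
    let Φ₀ : C(W' × TT κ.k, X) := ⟨fun a => ⟨fun l => lev (cc a.1.1 l) a.2.1,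
      hXt a.1.1 a.1.2 a.2.1 a.2.2⟩, by
      refine Continuous.subtype_mk (continuous_pi (fun l => ?_)) _
      exact continuous_lev.comp (Continuous.prodMk
        (continuous_pi (fun α => (hcoord _).comp continuous_fst)) continuous_snd)⟩
    let Φ : C(W' × TT κ.k, QP p q) := π.comp Φ₀
    have hC : ∀ y : TT κ.k, 𝒱.C (FundamentalGroup.map (slice Φ w) y).range := by
      intro y
      exact hT κ.k _ y
    have hpr : ∀ w, (π.comp H) (w, 0) = ((ρ.comp (pmap e he)).comp pr) w := by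
      intro w
      obtain ⟨h1, -, -, h4, h5, -⟩ := (hmem w.1).mp w.2
      have h6 : outer (cv w.1) (cn w.1) = fun b => MvPolynomial.eval (cw w.1) (e b) :=
        funext (fun b => h5 b)
      have h7 : H (w, 0) = ⟨cv w.1, hXv w.1 w.2⟩ := Subtype.ext (hH0 w)
      have h8 : pmap e he (pr w) = ⟨outer (cv w.1) (cn w.1), by rw [h6]; exact he _ h1⟩ :=
        Subtype.ext h6.symm
      show π (H (w, 0)) = ρ (pmap e he (pr w))
      rw [h7, h8]
      refine Subtype.ext ?_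
      rw [hρ _ _ (ne_zero_of_dot h4) _ h4]
      rfl
    have hpr' : ∀ w, (π.comp H') (w, 0) = (ρ.comp (pmap e' he')) w := by
      intro w
      have h4 := ((hmem w.1).mp w.2).2.2.2.2.2.2.1
      have h7 : H' (w, 0) = ⟨cv' w.1, hXv' w.1 w.2⟩ := Subtype.ext (hH'0 w)
      have h8 : pmap e' he' w = ⟨outer (cv' w.1) (cn' w.1), by
          rw [← he'ev]; exact he' _ w.2⟩ := Subtype.ext (he'ev w.1)
      show π (H' (w, 0)) = ρ (pmap e' he' w)
      rw [h7, h8]
      refine Subtype.ext ?_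
      rw [hρ _ _ (ne_zero_of_dot h4) _ h4]
      rfl
    refine 𝒱.range_of_ker _ ((((FundamentalGroup.map (ρ.comp (pmap e he)) (pr w)).rangeRestrict.comp
      (FundamentalGroup.map pr w)).prod
      (((FundamentalGroup.map (slice Φ w) (b w)).rangeRestrict.comp
        (FundamentalGroup.map b w)).prod
      ((FundamentalGroup.map (slice Φ w) (b' w)).rangeRestrict.comp
        (FundamentalGroup.map b' w))))) (fun g hg => ?_)
      (𝒱.prod (hkill (pr w)) (𝒱.prod (hC _) (hC _)))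
    obtain ⟨P, rfl⟩ := Path.Homotopic.Quotient.mk_surjective g
    have hg1 := congrArg (fun z => z.1.1) hg
    have hg2 := congrArg (fun z => z.2.1.1) hg
    have hg3 := congrArg (fun z => z.2.2.1) hg
    have h1 : Path.Homotopic.Quotient.map (Path.Homotopic.Quotient.mk P)
        ((ρ.comp (pmap e he)).comp pr) = Path.Homotopic.Quotient.refl _ := by
      rw [Path.Homotopic.Quotient.map_comp]
      exact hg1
    have h2 := null_transfer (π.comp H) (s := 0) (s' := 1) (Path.Homotopic.Quotient.mk P)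
      ((ρ.comp (pmap e he)).comp pr) (Φ.comp ((ContinuousMap.id W').prodMk b))
      hpr (fun w => congrArg π (Subtype.ext (hH1 w))) h1
    have h3 := step Φ b b' (Path.Homotopic.Quotient.mk P)
      (PathConnectedSpace.somePath _ _) h2 hg2 hg3
    exact null_transfer (π.comp H') (s := 1) (s' := 0) (Path.Homotopic.Quotient.mk P)
      (Φ.comp ((ContinuousMap.id W').prodMk b')) (ρ.comp (pmap e' he'))
      (fun w => congrArg π (Subtype.ext (hH'1 w))) hpr' h3


end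

end Pool.Agent.X325.HS
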