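import Mathlib
import Pool.Agent.X325.HS.Defs
import Pool.Agent.X325.HS.Step

/-! Fundamental groups of quasi-projective varieties connected by closures of entire curves and by
images of test varieties. -/

set_option autoImplicit false

open Topology Set

namespace Pool.Agent.X325.HS

open Pool.Agent.Y193.CS Pool.Agent.Y193.FG

section

variable {n : ℕ} {ι κ : Type} [Fintype κ] {p : ι → MvPolynomial (Fin (n + 1)) ℂ}
  {q : κ → MvPolynomial (Fin (n + 1)) ℂ}

theorem plink_of_ent (hp : ∀ i, ∃ d, (p i).IsHomogeneous d)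
    (hq : ∀ j, ∃ d, (q j).IsHomogeneous d) {x x' : CP n} (h : EntLinked p q x x')
    {v v' : Fin (n + 1) → ℂ} (hv : v ≠ 0) (hv' : v' ≠ 0) (hx : CP.mk v hv = x)
    (hx' : CP.mk v' hv' = x') : PLink p q v v' := by
  classical
  obtain ⟨-, -, φ, ⟨hφ, f, g, hf, hg, hcert, hφf⟩, hcl, hcl'⟩ := h
  have hne : ∀ z, (fun l => f l z) ≠ 0 := by
    intro z h0
    have h1 := hcert z
    rw [Finset.sum_eq_zero (fun j _ => Finset.sum_eq_zero (fun l _ => by
      rw [show f l z = 0 from congrFun h0 l, mul_zero]))] at h1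
    exact zero_ne_one h1
  obtain ⟨k, F₀, γ, hF₀, hG₀⟩ := exp_lift' (I := Fin (n + 1) ⊕ (κ × Fin (n + 1)))
    (Sum.elim f (fun b => g b.1 b.2)) (by
      rintro (l | b)
      · exact hf l
      · exact hg b.1 b.2)
  refine plink_of_torus hp hq (fun l => F₀ (Sum.inl l)) (fun b => F₀ (Sum.inr b)) (fun t i => ?_)
    (fun t => ?_) (fun G d hGd hG => ?_)
  · have h1 := hG₀ (MvPolynomial.rename Sum.inl (p i)) (fun z => by
      rw [MvPolynomial.eval_rename]
      have h2 := hφ z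
      rw [hφf z (hne z)] at h2
      exact ((mem_QP hp hq).mp h2).1 i) t
    rw [MvPolynomial.eval_rename] at h1
    exact h1
  · have h1 := hG₀ ((∑ b, MvPolynomial.X (Sum.inr b) * MvPolynomial.rename Sum.inl (q b.1) *
      MvPolynomial.X (Sum.inl b.2)) - 1) (fun z => by
      rw [map_sub, map_one, map_sum, sub_eq_zero, ← hcert z, Fintype.sum_prod_type]
      refine Finset.sum_congr rfl (fun j _ => Finset.sum_congr rfl (fun l _ => ?_))
      rw [map_mul, map_mul, MvPolynomial.eval_X, MvPolynomial.eval_X, MvPolynomial.eval_rename]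
      rfl) t
    rw [map_sub, map_one, map_sum, sub_eq_zero] at h1
    rw [← h1]
    refine Finset.sum_congr rfl (fun b _ => ?_)
    rw [map_mul, map_mul, MvPolynomial.eval_X, MvPolynomial.eval_X, MvPolynomial.eval_rename]
    rfl
  · have h1 : ∀ (w : Fin (n + 1) → ℂ) (hw : w ≠ 0), CP.mk w hw ∈ range φ →
        MvPolynomial.eval w G = 0 := by
      rintro w hw ⟨z, hz⟩
      rw [hφf z (hne z)] at hz
      obtain ⟨c, hc, h2⟩ := mk_eq_mk.mp hz.symm
      rw [h2, eval_smul' hGd]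
      have h3 := hG (γ z)
      have h4 : (fun l => MvPolynomial.eval (fun i => wT k i (γ z)) (F₀ (Sum.inl l))) =
          fun l => f l z := funext (fun l => (hF₀ (Sum.inl l) z).symm)
      rw [h4] at h3
      rw [h3, mul_zero]
    exact ⟨hcl G d hGd h1 v hv hx, hcl' G d hGd h1 v' hv' hx'⟩

/-- the points reached along a given sequence of codes -/
noncomputable def mcode (p : ι → MvPolynomial (Fin (n + 1)) ℂ)
    (q : κ → MvPolynomial (Fin (n + 1)) ℂ)
    {K : Type} {r : K → ℕ} (Y : ∀ k, Set (Fin (r k) → ℂ))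
    (M₀ : Fin (n + 1) × Fin (n + 1) → ℂ) :
    List (Code ⊕ (Option K × ℕ)) → Set (Fin (n + 1) × Fin (n + 1) → ℂ)
  | [] => {M₀}
  | Sum.inl c :: l => parcSet p q c (mcode p q Y M₀ l)
  | Sum.inr a :: l => stepSet (PT p) (QT q) (YT Y a.1) a.2 (mcode p q Y M₀ l)

theorem algSet_YT {K : Type} {r : K → ℕ} {Y : ∀ k, Set (Fin (r k) → ℂ)}
    (hYa : ∀ k, AlgSet (Y k)) : ∀ k, AlgSet (YT Y k) := by
  rintro (_ | k)
  · exact ⟨∅, by simp [YT]⟩
  · exact hYa k

theorem reach_more {K : Type} {r : K → ℕ} {Y : ∀ k, Set (Fin (r k) → ℂ)}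
    (hYa : ∀ k, AlgSet (Y k)) {M₀ M₁ M : Fin (n + 1) × Fin (n + 1) → ℂ}
    {l : List (Code ⊕ (Option K × ℕ))} (h1 : M₁ ∈ mcode p q Y M₀ l)
    (h : Relation.ReflTransGen (Link (QA (PT p) (QT q)) (YT Y)) M₁ M) :
    ∃ l', M ∈ mcode p q Y M₀ l' := by
  classical
  induction h with
  | refl => exact ⟨l, h1⟩
  | tail _ hlink ih =>
    obtain ⟨l, hl⟩ := ih
    obtain ⟨k, f, hf, y, hy, y', hy', e1, e2⟩ := hlink
    obtain ⟨g, hg⟩ := exists_bezout (algSet_YT hYa k) (fun j => MvPolynomial.bind₁ f (QT q j))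
      (fun y hy => by
        obtain ⟨j, hj⟩ := (hf y hy).2
        refine ⟨j, ?_⟩
        have : MvPolynomial.eval y (MvPolynomial.bind₁ f (QT q j)) =
            MvPolynomial.eval (fun i => MvPolynomial.eval y (f i)) (QT q j) :=
          MvPolynomial.eval₂Hom_bind₁ _ _ _ _
        rw [this]
        exact hj)
    obtain ⟨d₁, hd₁⟩ := exists_bev_fin f
    obtain ⟨d₂, hd₂⟩ := exists_bev_fin g
    obtain ⟨c, hc⟩ := hd₁ (max d₁ d₂) (le_max_left _ _)
    obtain ⟨c', hc'⟩ := hd₂ (max d₁ d₂) (le_max_right _ _)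
    have hfc : ∀ z, (fun l => bev (c l) z) = fun i => MvPolynomial.eval z (f i) :=
      fun z => funext (fun i => (hc i z).symm)
    refine ⟨Sum.inr (k, max d₁ d₂) :: l, c, c', fun z hz i => ?_, fun z hz => ?_, y, hy, y', hy',
      ?_, ?_⟩
    · rw [hfc]
      exact (hf z hz).1 i
    · rw [hfc, ← hg z hz]
      refine Finset.sum_congr rfl (fun j _ => ?_)
      rw [← hc']
      congr 1
      exact (MvPolynomial.eval₂Hom_bind₁ _ _ _ _).symm
    · show (fun l => bev (c l) y) ∈ _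
      rw [hfc, e1]
      exact hl
    · show (fun l => bev (c l) y') = _
      rw [hfc, e2]

theorem reach_m (hp : ∀ i, ∃ d, (p i).IsHomogeneous d)
    (hq : ∀ j, ∃ d, (q j).IsHomogeneous d) {K : Type} {r : K → ℕ}
    {Y : ∀ k, Set (Fin (r k) → ℂ)} (hYa : ∀ k, AlgSet (Y k)) {v₀ η₀ : Fin (n + 1) → ℂ}
    {hv₀ : v₀ ≠ 0} (hX₀ : CP.mk v₀ hv₀ ∈ QP p q) (h₀ : ∑ i, v₀ i * η₀ i = 1) {x : CP n}
    (h : Relation.ReflTransGen (MixedLinked p q Y) (CP.mk v₀ hv₀) x) :
    ∀ (v η : Fin (n + 1) → ℂ) (hv : v ≠ 0), CP.mk v hv = x → ∑ i, v i * η i = 1 →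
      ∃ l, outer v η ∈ mcode p q Y (outer v₀ η₀) l := by
  induction h with
  | refl =>
    intro v η hv hx hd
    obtain ⟨η', h1, h2⟩ := outer_smul (hv := hv₀) (hv' := hv) hd hx.symm
    rw [h2]
    exact reach_more hYa (l := []) (M₁ := outer v₀ η₀) rfl
      (Relation.ReflTransGen.single (fibre_link hp hq Y hX₀ h₀ h1))
  | @tail y z _ hl ih =>
    intro v η hv hx hd
    obtain ⟨v₁, hv₁, hy⟩ := mk_surj y
    obtain ⟨l, hlm⟩ := ih v₁ (dual v₁) hv₁ hy (dot_dual hv₁)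
    rcases hl with hl | hl | hl
    · have h2 := hl.2.1
      obtain ⟨c, hc⟩ := step_of_plink hp hq (hv' := hv) (plink_of_ent hp hq hl hv₁ hv hy hx)
        (by rw [hx]; exact h2) hlm (dot_dual hv₁) hd
      exact ⟨Sum.inl c :: l, hc⟩
    · have h2 := hl.2.1
      obtain ⟨c, hc⟩ := step_of_plink hp hq (hv' := hv)
        (plink_of_torusLinked hp hq hl hv₁ hv hy hx)
        (by rw [hx]; exact h2) hlm (dot_dual hv₁) hd
      exact ⟨Sum.inl c :: l, hc⟩
    · subst hy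
      have hX1 : CP.mk v₁ hv₁ ∈ QP p q := by
        obtain ⟨k, φ, hφ, hφX, ⟨a, ha⟩, -⟩ := hl
        rw [← ha]
        exact hφX a
      exact reach_more hYa hlm (reach_lift hp hq hYa hX1 (dot_dual hv₁)
        (Relation.ReflTransGen.single hl) v η hv hx hd)

theorem goodSet_mcode (𝒱 : PClass) (hp : ∀ i, ∃ d, (p i).IsHomogeneous d)
    (hq : ∀ j, ∃ d, (q j).IsHomogeneous d) {ρ : C(QA (PT p) (QT q), QP p q)}
    (hρ : ∀ (v η : Fin (n + 1) → ℂ) (hv : v ≠ 0) (h : outer v η ∈ QA (PT p) (QT q)),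
        ∑ i, v i * η i = 1 → (ρ ⟨outer v η, h⟩).1 = CP.mk v hv) {K : Type} {r : K → ℕ}
    {Y : ∀ k, Set (Fin (r k) → ℂ)} (hYa : ∀ k, AlgSet (Y k)) (hYc : ∀ k, IsPathConnected (Y k))
    (hYV : ∀ k, ∀ φ : C(Y k, QP p q), IsRegularMap (Y k) (fun y => (φ y).1) →
      ∀ y : Y k, 𝒱.C (FundamentalGroup.map φ y).range)
    (hT : ∀ (k : ℕ) (φ : C(TT k, QP p q)) (y : TT k), 𝒱.C (FundamentalGroup.map φ y).range)
    {M₀ : Fin (n + 1) × Fin (n + 1) → ℂ} (h0 : M₀ ∈ QA (PT p) (QT q))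
    (l : List (Code ⊕ (Option K × ℕ))) :
    GoodSet 𝒱 (QA (PT p) (QT q)) ρ (mcode p q Y M₀ l) := by
  induction l with
  | nil => exact goodSet_singleton 𝒱 ρ h0
  | cons a l ih =>
    rcases a with c | ⟨k, d⟩
    · exact goodSet_parc' 𝒱 hp hq hρ c ih hT
    · refine goodSet_step 𝒱 ρ (algSet_YT hYa k) ?_ ?_ d ih
      · rcases k with _ | k
        · exact isPathConnected_univ
        · exact hYc k
      · rcases k with _ | k
        · intro f hf y
          have : ContractibleSpace (YT Y none) :=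
            (Homeomorph.Set.univ (Fin 1 → ℂ)).contractibleSpace
          have := subsingleton_pi1 y
          exact 𝒱.of_surjective (FundamentalGroup.map (ρ.comp (pmap f hf)) y).rangeRestrict
            (MonoidHom.rangeRestrict_surjective _) (class_subsingleton 𝒱)
        · intro f hf y
          exact hYV k (ρ.comp (pmap f hf)) (isRegular_rho hp hq hρ f hf) y

theorem main_mixed (𝒱 : PClass) (hp : ∀ i, ∃ d, (p i).IsHomogeneous d)
    (hq : ∀ j, ∃ d, (q j).IsHomogeneous d) (hs : IsSmooth (QP p q)) (hc : IsConnected (QP p q))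
    {K : Type} [Countable K] {r : K → ℕ} {Y : ∀ k, Set (Fin (r k) → ℂ)}
    (hYa : ∀ k, AlgSet (Y k)) (hYc : ∀ k, IsPathConnected (Y k))
    (hYV : ∀ k, ∀ φ : C(Y k, QP p q), IsRegularMap (Y k) (fun y => (φ y).1) →
      ∀ y : Y k, 𝒱.C (FundamentalGroup.map φ y).range)
    (hT : ∀ (k : ℕ) (φ : C(TT k, QP p q)) (y : TT k), 𝒱.C (FundamentalGroup.map φ y).range)
    {x₀ : CP n} (hx₀ : x₀ ∈ QP p q)
    (hthin : ¬ IsThin (QP p q) {x | Relation.ReflTransGen (MixedLinked p q Y) x₀ x})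
    (x : QP p q) : ∃ H : Subgroup (FundamentalGroup (QP p q) x), H.FiniteIndex ∧ 𝒱.C H := by
  classical
  have : Encodable (List (Code ⊕ (Option K × ℕ))) := Encodable.ofCountable _
  obtain ⟨ρ, hρ⟩ := exists_rho hp hq
  obtain ⟨σ, hσ⟩ := exists_sigma hp hq
  have hsub := isSubm_XT hp hq hs
  have hcon := connected_XT hp hq hc
  have hρσ : ∀ P, ρ (σ P) = P := by
    intro P
    obtain ⟨v, hv, hP⟩ := mk_surj P.1
    have hX : CP.mk v hv ∈ QP p q := by rw [hP]; exact P.2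
    have e1 : P = ⟨CP.mk v hv, hX⟩ := Subtype.ext hP.symm
    rw [e1]
    have h1 : (σ ⟨CP.mk v hv, hX⟩) = ⟨outer v (dual v), outer_mem hp hq (dot_dual hv) hX⟩ :=
      Subtype.ext (hσ v hv hX)
    rw [h1]
    exact Subtype.ext (hρ v (dual v) hv _ (dot_dual hv))
  obtain ⟨v₀, hv₀, rfl⟩ := mk_surj x₀
  have hpcX : PathConnectedSpace (QA (PT p) (QT q)) := pathConnected_of hsub hcon
  have hpc : PathConnectedSpace (QP p q) :=
    Function.Surjective.pathConnectedSpace (fun P => ⟨σ P, hρσ P⟩) ρ.continuous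
  have hsurj : ∀ M, Function.Surjective (FundamentalGroup.map ρ M) := by
    intro M
    refine surj_transfer ρ (PathConnectedSpace.somePath M (σ (ρ M))) ?_
    intro g
    obtain ⟨P, rfl⟩ := Path.Homotopic.Quotient.mk_surjective g
    have hP : ∀ t, ρ (σ (P t)) = P t := fun t => hρσ _
    have hσx : σ (ρ (σ (ρ M))) = σ (ρ M) := by rw [hρσ]
    refine ⟨Path.Homotopic.Quotient.mk ((P.map σ.continuous).cast hσx.symm hσx.symm), ?_⟩
    refine congrArg Path.Homotopic.Quotient.mk ?_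
    ext1
    funext t
    exact hP t
  refine main_abs (L := List (Code ⊕ (Option K × ℕ))) 𝒱 ρ hsurj hsub hcon
    (mcode p q Y (outer v₀ (dual v₀)))
    (fun l => goodSet_mcode 𝒱 hp hq hρ hYa hYc hYV hT (outer_mem hp hq (dot_dual hv₀) hx₀) l)
    (fun g hg => ?_) x
  obtain ⟨v, η, hv, hvS, hd, hgM⟩ := exists_of_notThin hp hq hthin hc.nonempty g hg
  exact ⟨outer v η, reach_m hp hq hYa hx₀ (dot_dual hv₀) hvS v η hv rfl hd, hgM⟩

/-- the main theorem -/
theorem main_class (hp : ∀ i, ∃ d, (p i).IsHomogeneous d)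
    (hq : ∀ j, ∃ d, (q j).IsHomogeneous d) (hs : IsSmooth (QP p q)) (hc : IsConnected (QP p q))
    {K : Type} [Countable K] {r : K → ℕ} {Y : ∀ k, Set (Fin (r k) → ℂ)}
    (hYa : ∀ k, IsAlgebraic' (Y k)) (hYc : ∀ k, IsPathConnected (Y k))
    (C : ∀ (G : Type) [Group G], Prop) (hC : IsClosedClass C)
    (hab : ∀ (G : Type) [Group G], (∀ a b : G, a * b = b * a) → C G)
    (hY : ImagesIn (QP p q) Y C) {x₀ : CP n} (hx₀ : x₀ ∈ QP p q)
    (hthin : ¬ IsThin (QP p q) {x | Relation.ReflTransGen (MixedLinked p q Y) x₀ x})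
    (x : QP p q) : Virtually C (FundamentalGroup (QP p q) x) := by
  let 𝒱 : PClass := ⟨C, hC.triv, fun f => hC.sub _ _ f, fun f => hC.quot _ _ f, hC.prod _ _⟩
  exact main_mixed 𝒱 hp hq hs hc hYa hYc (fun k φ hφ y => hY k φ hφ y)
    (fun k φ y => 𝒱.of_surjective (FundamentalGroup.map φ y).rangeRestrict
      (MonoidHom.rangeRestrict_surjective _) (hab _ (comm_TT k y))) hx₀ hthin x

end

end Pool.Agent.X325.HS
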