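import Mathlib
import Pool.Agent.X325.HS.Main

/-! Classes of groups closed under extensions, squares of paths, and transport in families. -/

set_option autoImplicit false

open Topology Set unitInterval

namespace Pool.Agent.X325.HS

open Pool.Agent.Y193.CS Pool.Agent.Y193.FG

section groups

variable {C : ∀ (G : Type) [Group G], Prop}

theorem ext_prod (hC : IsExtClass C) (G G' : Type) [Group G] [Group G'] (h : C G) (h' : C G') :
    C (G × G') := by
  have hN : C (MonoidHom.snd G G').ker := by
    refine hC.sub _ G ((MonoidHom.fst G G').comp (MonoidHom.snd G G').ker.subtype) ?_ h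
    rintro ⟨a, ha⟩ ⟨b, hb⟩ hab
    apply Subtype.ext
    have ha' : a.2 = 1 := ha
    have hb' : b.2 = 1 := hb
    exact Prod.ext hab (ha'.trans hb'.symm)
  refine hC.ext _ (MonoidHom.snd G G').ker hN ?_
  exact hC.sub _ G' (QuotientGroup.kerLift (MonoidHom.snd G G'))
    (QuotientGroup.kerLift_injective _) h'

/-- a class closed under extensions is closed under finite products -/
def ePClass (hC : IsExtClass C) : PClass :=
  ⟨C, hC.triv, fun f => hC.sub _ _ f, fun f => hC.quot _ _ f, ext_prod hC _ _⟩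

theorem range_of_ext (hC : IsExtClass C) {G Q P : Type} [Group G] [Group Q] [Group P]
    (E : G →* Q) (A : G →* P) (S : Subgroup Q) (h : ∀ g, A g = 1 → E g ∈ S) (hS : C S)
    (hA : C A.range) : C E.range := by
  let N : Subgroup E.range := A.ker.map E.rangeRestrict
  have hNn : N.Normal := Subgroup.Normal.map inferInstance _ E.rangeRestrict_surjective
  have hNS : ∀ x : N, (x.1 : Q) ∈ S := by
    rintro ⟨x, g, hg, rfl⟩
    exact h g hg
  have hN : C N := by
    refine hC.sub N S ⟨⟨fun x => ⟨(x.1 : Q), hNS x⟩, rfl⟩, fun _ _ => rfl⟩ ?_ hS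
    intro x y hxy
    have h2 : (x.1 : Q) = (y.1 : Q) := congrArg (fun z : S => (z : Q)) hxy
    exact Subtype.ext (Subtype.ext h2)
  refine hC.ext _ N hN ?_
  have h1 : C (G ⧸ A.ker) :=
    hC.sub _ _ (QuotientGroup.quotientKerEquivRange A).toMonoidHom
      (QuotientGroup.quotientKerEquivRange A).injective hA
  refine hC.quot _ _ (QuotientGroup.lift A.ker ((QuotientGroup.mk' N).comp E.rangeRestrict)
    (fun g hg => ?_)) ?_ h1
  · rw [MonoidHom.mem_ker, MonoidHom.comp_apply, QuotientGroup.mk'_apply,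
      QuotientGroup.eq_one_iff]
    exact ⟨g, hg, rfl⟩
  · intro y
    obtain ⟨x, rfl⟩ := QuotientGroup.mk'_surjective N y
    obtain ⟨g, rfl⟩ := E.rangeRestrict_surjective x
    exact ⟨QuotientGroup.mk g, rfl⟩

end groups

section paths

theorem square {Z : Type*} [TopologicalSpace Z] (H : C(I × I, Z)) {a b c d : Z} (p : Path a b)
    (r : Path b d) (l : Path a c) (t : Path c d) (hp : ∀ s, p s = H (s, 0))
    (hr : ∀ u, r u = H (1, u)) (hl : ∀ u, l u = H (0, u)) (ht : ∀ s, t s = H (s, 1)) :
    (Path.Homotopic.Quotient.mk p).trans (Path.Homotopic.Quotient.mk r) = (Path.Homotopic.Quotient.mk l).trans (Path.Homotopic.Quotient.mk t) := by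
  obtain rfl : a = H (0, 0) := by rw [← hp 0, p.source]
  obtain rfl : b = H (1, 0) := by rw [← hp 1, p.target]
  obtain rfl : c = H (0, 1) := by rw [← hl 1, l.target]
  obtain rfl : d = H (1, 1) := by rw [← hr 1, r.target]
  let ι : Path (0 : I) 1 := ⟨ContinuousMap.id _, rfl, rfl⟩
  have e : (Path.Homotopic.prod (Path.Homotopic.Quotient.mk ι) (Path.Homotopic.Quotient.mk (Path.refl 0))).trans
      (Path.Homotopic.prod (Path.Homotopic.Quotient.mk (Path.refl 1)) (Path.Homotopic.Quotient.mk ι)) =
      (Path.Homotopic.prod (Path.Homotopic.Quotient.mk (Path.refl 0)) (Path.Homotopic.Quotient.mk ι)).trans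
      (Path.Homotopic.prod (Path.Homotopic.Quotient.mk ι) (Path.Homotopic.Quotient.mk (Path.refl 1))) := by
    rw [Path.Homotopic.comp_prod_eq_prod_comp, Path.Homotopic.comp_prod_eq_prod_comp]
    congr 1
    · exact (Path.Homotopic.Quotient.trans_refl _).trans
        (Path.Homotopic.Quotient.refl_trans _).symm
    · exact (Path.Homotopic.Quotient.refl_trans _).trans
        (Path.Homotopic.Quotient.trans_refl _).symm
  have e2 := congrArg (fun r => Path.Homotopic.Quotient.map r H) e
  simp only [map_trans', Path.Homotopic.prod_lift] at e2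
  have e3 : ∀ {x y : I × I} (R : Path x y), (Path.Homotopic.Quotient.mk R).map H =
      Path.Homotopic.Quotient.mk (R.map H.continuous) := fun R => rfl
  rw [e3, e3, e3, e3] at e2
  have k1 : (Path.prod ι (Path.refl 0)).map H.continuous = p := by
    ext s
    exact (hp s).symm
  have k2 : (Path.prod (Path.refl 1) ι).map H.continuous = r := by
    ext s
    exact (hr s).symm
  have k3 : (Path.prod (Path.refl 0) ι).map H.continuous = l := by
    ext s
    exact (hl s).symm
  have k4 : (Path.prod ι (Path.refl 1)).map H.continuous = t := by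
    ext s
    exact (ht s).symm
  rw [k1, k2, k3, k4] at e2
  exact e2

theorem cancel {Z : Type*} [TopologicalSpace Z] {a b : Z} (A B : Path.Homotopic.Quotient a b)
    (t : Path.Homotopic.Quotient b b) (h : B = A.trans t) : A.symm.trans B = t := by
  subst h
  rw [← Path.Homotopic.Quotient.trans_assoc, Path.Homotopic.Quotient.symm_trans,
    Path.Homotopic.Quotient.refl_trans]

end paths

section families

variable {r a : ℕ}

/-- the fibre through the point `y` of the family `𝒴` given by the functions `π` -/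
def Fib (𝒴 : Set (Fin r → ℂ)) (π : Fin a → MvPolynomial (Fin r) ℂ) (y : Fin r → ℂ) :
    Set (Fin r → ℂ) :=
  {z | z ∈ 𝒴 ∧ ∀ i, MvPolynomial.eval z (π i) = MvPolynomial.eval y (π i)}

/-- The family `𝒴 → B`, `B ⊆ ℂ^a`, given by the functions `π` has the homotopy lifting property for
the pair `([0,1], {0,1})`: a path `β` in a fibre can be transported along a path of the base, with
prescribed end points `y s` and `y' s`. This holds for locally trivial fibre bundles. -/
def HasTransport (𝒴 : Set (Fin r → ℂ)) (π : Fin a → MvPolynomial (Fin r) ℂ) : Prop :=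
  ∀ (y y' β : C(I, 𝒴)),
    (∀ s i, MvPolynomial.eval (y' s).1 (π i) = MvPolynomial.eval (y s).1 (π i)) →
    (∀ u i, MvPolynomial.eval (β u).1 (π i) = MvPolynomial.eval (y 0).1 (π i)) →
    β 0 = y 0 → β 1 = y' 0 →
    ∃ B : C(I × I, 𝒴), (∀ s u i, MvPolynomial.eval (B (s, u)).1 (π i) =
        MvPolynomial.eval (y s).1 (π i)) ∧
      (∀ u, B (0, u) = β u) ∧ (∀ s, B (s, 0) = y s) ∧ ∀ s, B (s, 1) = y' s

/-- the restriction of a map to a fibre -/
noncomputable def toFib {𝒴 : Set (Fin r → ℂ)} {π : Fin a → MvPolynomial (Fin r) ℂ} {Z : Type}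
    [TopologicalSpace Z] (φ : C(𝒴, Z)) (y : Fin r → ℂ) : C(Fib 𝒴 π y, Z) :=
  φ.comp ⟨fun z => ⟨z.1, z.2.1⟩, Continuous.subtype_mk continuous_subtype_val _⟩

theorem fam_step {𝒴 : Set (Fin r → ℂ)} {π : Fin a → MvPolynomial (Fin r) ℂ}
    (hc : ∀ y ∈ 𝒴, IsPathConnected (Fib 𝒴 π y)) (ht : HasTransport 𝒴 π) {Z W : Type}
    [TopologicalSpace Z] [TopologicalSpace W] (Φ : C(𝒴, Z)) (s s' : C(W, 𝒴))
    (hs : ∀ w i, MvPolynomial.eval (s' w).1 (π i) = MvPolynomial.eval (s w).1 (π i)) (w : W)
    (P : Path w w)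
    (h : (Path.Homotopic.Quotient.mk P).map (Φ.comp s) = Path.Homotopic.Quotient.refl _) :
    ∃ R : FundamentalGroup (Fib 𝒴 π (s w).1) ⟨(s' w).1, (s' w).2, hs w⟩,
      FundamentalGroup.map (toFib (π := π) Φ (s w).1) _ R =
        (Path.Homotopic.Quotient.mk P).map (Φ.comp s') := by
  -- a path in the fibre
  have hpc := hc (s w).1 (s w).2
  have hb : JoinedIn (Fib 𝒴 π (s w).1) (s w).1 (s' w).1 :=
    hpc.joinedIn _ ⟨(s w).2, fun _ => rfl⟩ _ ⟨(s' w).2, hs w⟩
  obtain ⟨β, hβ⟩ := hb
  let βc : C(I, 𝒴) := ⟨fun u => ⟨β u, (hβ u).1⟩, Continuous.subtype_mk β.continuous _⟩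
  obtain ⟨B, hB, hB0, hBl, hBr⟩ := ht (s.comp P.toContinuousMap) (s'.comp P.toContinuousMap) βc
    (fun u i => hs _ i) (fun u i => by
      have h1 := (hβ u).2 i
      show MvPolynomial.eval (β u) (π i) = MvPolynomial.eval (s (P 0)).1 (π i)
      rw [h1, P.source])
    (by
      apply Subtype.ext
      show β 0 = (s (P 0)).1
      rw [β.source, P.source])
    (by
      apply Subtype.ext
      show β 1 = (s' (P 0)).1
      rw [β.target, P.source])
  have hB1 : ∀ u, (B (1, u)).1 ∈ Fib 𝒴 π (s w).1 := fun u => ⟨(B (1, u)).2, fun i => by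
    rw [hB]
    show MvPolynomial.eval (s (P 1)).1 (π i) = _
    rw [P.target]⟩
  let F := Fib 𝒴 π (s w).1
  let z : F := ⟨(s w).1, (s w).2, fun _ => rfl⟩
  let z' : F := ⟨(s' w).1, (s' w).2, hs w⟩
  let β₀ : Path z z' :=
    { toFun := fun u => ⟨β u, hβ u⟩
      continuous_toFun := Continuous.subtype_mk β.continuous _
      source' := Subtype.ext β.source
      target' := Subtype.ext β.target }
  let β₁ : Path z z' :=
    { toFun := fun u => ⟨(B (1, u)).1, hB1 u⟩
      continuous_toFun := Continuous.subtype_mk (continuous_subtype_val.comp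
        (B.continuous.comp (by fun_prop))) _
      source' := Subtype.ext (by
        show (B (1, 0)).1 = (s w).1
        rw [hBl]
        show (s (P 1)).1 = _
        rw [P.target])
      target' := Subtype.ext (by
        show (B (1, 1)).1 = (s' w).1
        rw [hBr]
        show (s' (P 1)).1 = _
        rw [P.target]) }
  have hsq := square (Φ.comp B) (P.map (Φ.comp s).continuous)
    (β₁.map (toFib (π := π) Φ (s w).1).continuous)
    (β₀.map (toFib (π := π) Φ (s w).1).continuous) (P.map (Φ.comp s').continuous)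
    (fun t => congrArg Φ (hBl t).symm) (fun u => rfl)
    (fun u => congrArg Φ (Subtype.ext (congrArg Subtype.val (hB0 u)).symm))
    (fun t => congrArg Φ (hBr t).symm)
  have h' : Path.Homotopic.Quotient.mk (P.map (Φ.comp s).continuous) =
      Path.Homotopic.Quotient.refl _ := h
  rw [h', Path.Homotopic.Quotient.refl_trans] at hsq
  refine ⟨Path.Homotopic.Quotient.mk (β₀.symm.trans β₁), ?_⟩
  show (Path.Homotopic.Quotient.mk (β₀.symm.trans β₁)).map (toFib (π := π) Φ (s w).1) = _
  have e1 : (Path.Homotopic.Quotient.mk (β₀.symm.trans β₁)).map (toFib (π := π) Φ (s w).1) =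
      (Path.Homotopic.Quotient.mk (β₀.map (toFib (π := π) Φ (s w).1).continuous)).symm.trans
        (Path.Homotopic.Quotient.mk (β₁.map (toFib (π := π) Φ (s w).1).continuous)) := by
    rw [Path.Homotopic.Quotient.mk_trans, map_trans']
    rfl
  rw [e1]
  exact cancel _ _ _ hsq

end families

end Pool.Agent.X325.HS
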