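import Mathlib
import Pool.Agent.X325.HS.Ext

/-! The step of a chain given by the fibres of an algebraic family. -/

set_option autoImplicit false

open Topology Set unitInterval

namespace Pool.Agent.X325.HS

open Pool.Agent.Y193.CS Pool.Agent.Y193.FG

section

variable {C : ∀ (G : Type) [Group G], Prop} {r a : ℕ}

theorem fam_range (hC : IsExtClass C) {𝒴 : Set (Fin r → ℂ)}
    {π : Fin a → MvPolynomial (Fin r) ℂ} (hc : ∀ y ∈ 𝒴, IsPathConnected (Fib 𝒴 π y))
    (ht : HasTransport 𝒴 π) {Z W : Type}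
    [TopologicalSpace Z] [TopologicalSpace W] (Φ : C(𝒴, Z)) (s s' : C(W, 𝒴))
    (hs : ∀ w i, MvPolynomial.eval (s' w).1 (π i) = MvPolynomial.eval (s w).1 (π i)) (w : W)
    (Ψ₀ Ψ : C(W, Z)) (h0 : Ψ₀ = Φ.comp s) (h1 : Ψ = Φ.comp s')
    (hV : C (FundamentalGroup.map (toFib (π := π) Φ (s w).1)
      ⟨(s' w).1, (s' w).2, hs w⟩).range)
    (hA : C (FundamentalGroup.map Ψ₀ w).range) : C (FundamentalGroup.map Ψ w).range := by
  subst h0 h1
  refine range_of_ext hC _ (FundamentalGroup.map (Φ.comp s) w)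
    (show Subgroup (FundamentalGroup Z ((Φ.comp s') w)) from
      (FundamentalGroup.map (toFib (π := π) Φ (s w).1) ⟨(s' w).1, (s' w).2, hs w⟩).range)
    (fun g hg => ?_) hV hA
  obtain ⟨P, rfl⟩ := Path.Homotopic.Quotient.mk_surjective g
  obtain ⟨R, hR⟩ := fam_step hc ht Φ s s' hs w P hg
  exact ⟨R, hR⟩

/-- the points reached from `A` through the fibres of a family -/
def famSet {T : Type} (𝒴 : Set (Fin r → ℂ)) (π : Fin a → MvPolynomial (Fin r) ℂ)
    (F : T → MvPolynomial (Fin r) ℂ) (A : Set (T → ℂ)) : Set (T → ℂ) :=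
  {M' | ∃ y ∈ 𝒴, ∃ y' ∈ 𝒴, (∀ i, MvPolynomial.eval y' (π i) = MvPolynomial.eval y (π i)) ∧
    (fun l => MvPolynomial.eval y (F l)) ∈ A ∧ (fun l => MvPolynomial.eval y' (F l)) = M'}

theorem goodSet_fam (hC : IsExtClass C) {T : Type} [Fintype T] {X : Set (T → ℂ)} {Z : Type}
    [TopologicalSpace Z] (ρ : C(X, Z)) {𝒴 : Set (Fin r → ℂ)} (hYa : AlgSet 𝒴)
    {π : Fin a → MvPolynomial (Fin r) ℂ} (hc : ∀ y ∈ 𝒴, IsPathConnected (Fib 𝒴 π y))
    (ht : HasTransport 𝒴 π) (F : T → MvPolynomial (Fin r) ℂ)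
    (hF : ∀ y ∈ 𝒴, (fun i => MvPolynomial.eval y (F i)) ∈ X)
    (hV : ∀ y ∈ 𝒴, ∀ z : Fib 𝒴 π y,
      C (FundamentalGroup.map (toFib (π := π) (ρ.comp (pmap F hF)) y) z).range)
    {A : Set (T → ℂ)} (hA : GoodSet (ePClass hC) X ρ A) :
    GoodSet (ePClass hC) X ρ (famSet 𝒴 π F A) := by
  classical
  obtain ⟨J, hJ, W, hW, e, he, hcov, hkill⟩ := hA
  let J' : Type := J ⊕ (Fin r ⊕ Fin r)
  let cw : (J' → ℂ) → J → ℂ := fun w j => w (Sum.inl j)
  let cy : (J' → ℂ) → Fin r → ℂ := fun w l => w (Sum.inr (Sum.inl l))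
  let cz : (J' → ℂ) → Fin r → ℂ := fun w l => w (Sum.inr (Sum.inr l))
  let W' : Set (J' → ℂ) := {w | cw w ∈ W} ∩ {w | cy w ∈ 𝒴} ∩ {w | cz w ∈ 𝒴} ∩
    (⋂ i, {w | MvPolynomial.eval (cz w) (π i) - MvPolynomial.eval (cy w) (π i) = 0}) ∩
    (⋂ l, {w | MvPolynomial.eval (cy w) (F l) - MvPolynomial.eval (cw w) (e l) = 0})
  have hW' : AlgSet W' := by
    refine (((AlgSet.inter ?_ ?_).inter ?_).inter ?_).inter ?_
    · exact hW.preimage (fun j => PolyF.coord _)
    · exact hYa.preimage (fun j => PolyF.coord _)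
    · exact hYa.preimage (fun j => PolyF.coord _)
    · exact AlgSet.iInter (fun i => AlgSet.zero (PolyF.sub (PolyF.comp (fun j => PolyF.coord _) _)
        (PolyF.comp (fun j => PolyF.coord _) _)))
    · exact AlgSet.iInter (fun i => AlgSet.zero (PolyF.sub (PolyF.comp (fun j => PolyF.coord _) _)
        (PolyF.comp (fun j => PolyF.coord _) _)))
  have hmem : ∀ w : J' → ℂ, w ∈ W' ↔ (cw w ∈ W ∧ cy w ∈ 𝒴 ∧ cz w ∈ 𝒴 ∧
      (∀ i, MvPolynomial.eval (cz w) (π i) = MvPolynomial.eval (cy w) (π i)) ∧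
      (∀ l, MvPolynomial.eval (cy w) (F l) = MvPolynomial.eval (cw w) (e l))) := by
    intro w
    constructor
    · rintro ⟨⟨⟨⟨h1, h2⟩, h3⟩, h4⟩, h5⟩
      rw [mem_iInter] at h4 h5
      exact ⟨h1, h2, h3, fun i => sub_eq_zero.mp (h4 i), fun l => sub_eq_zero.mp (h5 l)⟩
    · rintro ⟨h1, h2, h3, h4, h5⟩
      refine ⟨⟨⟨⟨h1, h2⟩, h3⟩, ?_⟩, ?_⟩
      · rw [mem_iInter]
        exact fun i => sub_eq_zero.mpr (h4 i)
      · rw [mem_iInter]
        exact fun l => sub_eq_zero.mpr (h5 l)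
  let e' : T → MvPolynomial J' ℂ := fun l =>
    MvPolynomial.rename (fun j => Sum.inr (Sum.inr j)) (F l)
  have he'ev : ∀ (l : T) (w : J' → ℂ), MvPolynomial.eval w (e' l) =
      MvPolynomial.eval (cz w) (F l) := fun l w => MvPolynomial.eval_rename _ _ _
  have he' : ∀ w ∈ W', (fun i => MvPolynomial.eval w (e' i)) ∈ X := by
    intro w hw
    have h7 : (fun i => MvPolynomial.eval w (e' i)) = fun l => MvPolynomial.eval (cz w) (F l) :=
      funext (fun l => he'ev l w)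
    rw [h7]
    exact hF _ ((hmem w).mp hw).2.2.1
  have hfinJ : Finite J' := inferInstance
  refine ⟨J', hfinJ, W', hW', e', he', ?_, ?_⟩
  · rintro M' ⟨y, hy, y', hy', hπ, hyA, rfl⟩
    obtain ⟨w, hw, hwe⟩ := hcov _ hyA
    let w' : J' → ℂ := Sum.elim w (Sum.elim y y')
    exact ⟨w', (hmem w').mpr ⟨hw, hy, hy', hπ, fun l => (congrFun hwe l).symm⟩,
      funext (fun l => he'ev l w')⟩
  · intro w
    let pr : C(W', W) := ⟨fun w => ⟨cw w.1, ((hmem w.1).mp w.2).1⟩, by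
      refine Continuous.subtype_mk (continuous_pi (fun j => ?_)) _
      exact (continuous_apply _).comp continuous_subtype_val⟩
    let s : C(W', 𝒴) := ⟨fun w => ⟨cy w.1, ((hmem w.1).mp w.2).2.1⟩, by
      refine Continuous.subtype_mk (continuous_pi (fun j => ?_)) _
      exact (continuous_apply _).comp continuous_subtype_val⟩
    let s' : C(W', 𝒴) := ⟨fun w => ⟨cz w.1, ((hmem w.1).mp w.2).2.2.1⟩, by
      refine Continuous.subtype_mk (continuous_pi (fun j => ?_)) _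
      exact (continuous_apply _).comp continuous_subtype_val⟩
    refine fam_range hC hc ht (ρ.comp (pmap F hF)) s s'
      (fun w i => ((hmem w.1).mp w.2).2.2.2.1 i) w ((ρ.comp (pmap e he)).comp pr)
      (ρ.comp (pmap e' he')) ?_ ?_ (hV _ (s w).2 _) ?_
    · have h1 : (pmap F hF).comp s = (pmap e he).comp pr := by
        ext w l
        exact ((hmem w.1).mp w.2).2.2.2.2 l
      exact (congrArg (fun G => ρ.comp G) h1).symm
    · have h1 : pmap e' he' = (pmap F hF).comp s' := by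
        ext w l
        exact he'ev l w.1
      exact congrArg (fun G => ρ.comp G) h1
    · refine (ePClass hC).range_of_ker _
        ((FundamentalGroup.map (ρ.comp (pmap e he)) (pr w)).rangeRestrict.comp
          (FundamentalGroup.map pr w)) (fun g hg => ?_) (hkill (pr w))
      obtain ⟨P, rfl⟩ := Path.Homotopic.Quotient.mk_surjective g
      exact congrArg Subtype.val hg

end

end Pool.Agent.X325.HS
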