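import Mathlib
import Pool.Agent.X325.HS.Fam

/-! Fundamental groups of quasi-projective varieties connected by the fibres of algebraic
families. -/

set_option autoImplicit false

open Topology Set

namespace Pool.Agent.X325.HS

open Pool.Agent.Y193.CS Pool.Agent.Y193.FG

/-- `x` and `x'` lie in the image of one and the same fibre of one of the families
`𝒴 k → B k`, given by the functions `π k`, under the map `φ k : 𝒴 k → X` -/
def FamLinked {n : ℕ} (X : Set (CP n)) {K : Type} {r a : K → ℕ}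
    (𝒴 : ∀ k, Set (Fin (r k) → ℂ)) (π : ∀ k, Fin (a k) → MvPolynomial (Fin (r k)) ℂ)
    (φ : ∀ k, C(𝒴 k, X)) (x x' : CP n) : Prop :=
  ∃ (k : K) (y y' : 𝒴 k), (∀ i, MvPolynomial.eval y'.1 (π k i) = MvPolynomial.eval y.1 (π k i)) ∧
    (φ k y).1 = x ∧ (φ k y').1 = x'

section

variable {n : ℕ}

/-- the points reached along a sequence of steps -/
def seqSet {Ω : Type} (ops : Ω → Set (Fin (n + 1) × Fin (n + 1) → ℂ) →
    Set (Fin (n + 1) × Fin (n + 1) → ℂ)) (M₀ : Fin (n + 1) × Fin (n + 1) → ℂ) :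
    List Ω → Set (Fin (n + 1) × Fin (n + 1) → ℂ)
  | [] => {M₀}
  | o :: l => ops o (seqSet ops M₀ l)

variable {ι κ : Type} [Fintype κ] {p : ι → MvPolynomial (Fin (n + 1)) ℂ}
  {q : κ → MvPolynomial (Fin (n + 1)) ℂ}

theorem step_of_link {K : Type} {r : K → ℕ} {Y : ∀ k, Set (Fin (r k) → ℂ)}
    (hYa : ∀ k, AlgSet (Y k)) {A : Set (Fin (n + 1) × Fin (n + 1) → ℂ)}
    {M M' : Fin (n + 1) × Fin (n + 1) → ℂ} (h1 : M ∈ A)
    (h : Link (QA (PT p) (QT q)) (YT Y) M M') :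
    ∃ b : Option K × ℕ, M' ∈ stepSet (PT p) (QT q) (YT Y b.1) b.2 A := by
  classical
  obtain ⟨k, f, hf, y, hy, y', hy', e1, e2⟩ := h
  obtain ⟨g, hg⟩ := exists_bezout (algSet_YT hYa k) (fun j => MvPolynomial.bind₁ f (QT q j))
    (fun y hy => by
      obtain ⟨j, hj⟩ := (hf y hy).2
      refine ⟨j, ?_⟩
      have : MvPolynomial.eval y (MvPolynomial.bind₁ f (QT q j)) =
          MvPolynomial.eval (fun i => MvPolynomial.eval y (f i)) (QT q j) :=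
        MvPolynomial.eval₂Hom_bind₁ _ _ _ _
      rw [this]
      exact hj)
  obtain ⟨d₁, hd₁⟩ := exists_bev_fin f
  obtain ⟨d₂, hd₂⟩ := exists_bev_fin g
  obtain ⟨c, hc⟩ := hd₁ (max d₁ d₂) (le_max_left _ _)
  obtain ⟨c', hc'⟩ := hd₂ (max d₁ d₂) (le_max_right _ _)
  have hfc : ∀ z, (fun l => bev (c l) z) = fun i => MvPolynomial.eval z (f i) :=
    fun z => funext (fun i => (hc i z).symm)
  refine ⟨(k, max d₁ d₂), c, c', fun z hz i => ?_, fun z hz => ?_, y, hy, y', hy', ?_, ?_⟩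
  · rw [hfc]
    exact (hf z hz).1 i
  · rw [hfc, ← hg z hz]
    refine Finset.sum_congr rfl (fun j _ => ?_)
    rw [← hc']
    congr 1
    exact (MvPolynomial.eval₂Hom_bind₁ _ _ _ _).symm
  · show (fun l => bev (c l) y) ∈ _
    rw [hfc, e1]
    exact h1
  · show (fun l => bev (c l) y') = _
    rw [hfc, e2]

theorem reach_gen (hp : ∀ i, ∃ d, (p i).IsHomogeneous d)
    (hq : ∀ j, ∃ d, (q j).IsHomogeneous d) {K₀ : Type} {r₀ : K₀ → ℕ}
    {Y : ∀ k, Set (Fin (r₀ k) → ℂ)} (hYa : ∀ k, AlgSet (Y k)) {K : Type} {r a : K → ℕ}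
    {𝒴 : ∀ k, Set (Fin (r k) → ℂ)} {π : ∀ k, Fin (a k) → MvPolynomial (Fin (r k)) ℂ}
    {φ : ∀ k, C(𝒴 k, QP p q)} {F : ∀ k, Fin (n + 1) × Fin (n + 1) → MvPolynomial (Fin (r k)) ℂ}
    (hF : ∀ k (y : 𝒴 k), ∃ (v η : Fin (n + 1) → ℂ) (hv : v ≠ 0), (φ k y).1 = CP.mk v hv ∧
      ∑ i, v i * η i = 1 ∧ (fun b => MvPolynomial.eval y.1 (F k b)) = outer v η)
    {Ω : Type} {ops : Ω → Set (Fin (n + 1) × Fin (n + 1) → ℂ) →
      Set (Fin (n + 1) × Fin (n + 1) → ℂ)}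
    (hlink : ∀ A M M', M ∈ A → Link (QA (PT p) (QT q)) (YT Y) M M' → ∃ o, M' ∈ ops o A)
    (hfam : ∀ k A, ∃ o, famSet (𝒴 k) (π k) (F k) A ⊆ ops o A)
    {L : CP n → CP n → Prop}
    (hL : ∀ x x', L x x' → Linked (QP p q) Y x x' ∨ FamLinked (QP p q) 𝒴 π φ x x' ∨
      ∀ (v η v' η' : Fin (n + 1) → ℂ) (hv : v ≠ 0) (hv' : v' ≠ 0), CP.mk v hv = x →
        CP.mk v' hv' = x' → ∑ i, v i * η i = 1 → ∑ i, v' i * η' i = 1 → ∀ A, outer v η ∈ A →
          ∃ o, outer v' η' ∈ ops o A)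
    {v₀ η₀ : Fin (n + 1) → ℂ} {hv₀ : v₀ ≠ 0} (hX₀ : CP.mk v₀ hv₀ ∈ QP p q)
    (h₀ : ∑ i, v₀ i * η₀ i = 1) {x : CP n} (h : Relation.ReflTransGen L (CP.mk v₀ hv₀) x) :
    ∀ (v η : Fin (n + 1) → ℂ) (hv : v ≠ 0), CP.mk v hv = x → ∑ i, v i * η i = 1 →
      ∃ l, outer v η ∈ seqSet ops (outer v₀ η₀) l := by
  have hlinks : ∀ (M₁ M : Fin (n + 1) × Fin (n + 1) → ℂ) (l : List Ω),
      M₁ ∈ seqSet ops (outer v₀ η₀) l →
      Relation.ReflTransGen (Link (QA (PT p) (QT q)) (YT Y)) M₁ M →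
      ∃ l', M ∈ seqSet ops (outer v₀ η₀) l' := by
    intro M₁ M l h1 h
    induction h with
    | refl => exact ⟨l, h1⟩
    | tail _ hl ih =>
      obtain ⟨l, hl'⟩ := ih
      obtain ⟨o, ho⟩ := hlink _ _ _ hl' hl
      exact ⟨o :: l, ho⟩
  have hmove : ∀ (v η v' η' : Fin (n + 1) → ℂ) (hv : v ≠ 0) (hv' : v' ≠ 0),
      CP.mk v hv = CP.mk v' hv' → CP.mk v hv ∈ QP p q → ∑ i, v i * η i = 1 →
      ∑ i, v' i * η' i = 1 → ∀ l : List Ω, outer v η ∈ seqSet ops (outer v₀ η₀) l →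
      ∃ l', outer v' η' ∈ seqSet ops (outer v₀ η₀) l' := by
    intro v η v' η' hv hv' hvv hX hd hd' l hl
    obtain ⟨η'', h1, h2⟩ := outer_smul (hv := hv) (hv' := hv') hd' hvv
    rw [h2]
    exact hlinks _ _ l hl (Relation.ReflTransGen.single (fibre_link hp hq Y hX hd h1))
  induction h with
  | refl =>
    intro v η hv hx hd
    exact hmove v₀ η₀ v η hv₀ hv hx.symm hX₀ h₀ hd [] rfl
  | @tail y z _ hl ih =>
    intro v η hv hx hd
    obtain ⟨v₁, hv₁, hy⟩ := mk_surj y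
    obtain ⟨l, hlm⟩ := ih v₁ (dual v₁) hv₁ hy (dot_dual hv₁)
    rcases hL _ _ hl with hl | hl | hl
    · subst hy
      have hX1 : CP.mk v₁ hv₁ ∈ QP p q := by
        obtain ⟨k, φ, hφ, hφX, ⟨b, hb⟩, -⟩ := hl
        rw [← hb]
        exact hφX b
      exact hlinks _ _ l hlm (reach_lift hp hq hYa hX1 (dot_dual hv₁)
        (Relation.ReflTransGen.single hl) v η hv hx hd)
    · obtain ⟨k, b, b', hπ, h1, h2⟩ := hl
      obtain ⟨w, θ, hw, e1, e2, e3⟩ := hF k b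
      obtain ⟨w', θ', hw', e1', e2', e3'⟩ := hF k b'
      obtain ⟨l₁, hl₁⟩ := hmove v₁ (dual v₁) w θ hv₁ hw (by rw [hy, ← h1, e1])
        (by rw [hy, ← h1]; exact (φ k b).2) (dot_dual hv₁) e2 l hlm
      obtain ⟨o, ho⟩ := hfam k (seqSet ops (outer v₀ η₀) l₁)
      have h3 : outer w' θ' ∈ seqSet ops (outer v₀ η₀) (o :: l₁) :=
        ho ⟨b.1, b.2, b'.1, b'.2, hπ, by rw [e3]; exact hl₁, e3'⟩
      exact hmove w' θ' v η hw' hv (by rw [← e1', h2, hx]) (by rw [← e1']; exact (φ k b').2)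
        e2' hd _ h3
    · obtain ⟨o, ho⟩ := hl v₁ (dual v₁) v η hv₁ hv hy hx (dot_dual hv₁) hd _ hlm
      exact ⟨o :: l, ho⟩

theorem main_ops (𝒱 : PClass) (hp : ∀ i, ∃ d, (p i).IsHomogeneous d)
    (hq : ∀ j, ∃ d, (q j).IsHomogeneous d) (hs : IsSmooth (QP p q)) (hc : IsConnected (QP p q))
    {Ω : Type} [Countable Ω] {ops : Ω → Set (Fin (n + 1) × Fin (n + 1) → ℂ) →
      Set (Fin (n + 1) × Fin (n + 1) → ℂ)}
    (hgood : ∀ (ρ : C(QA (PT p) (QT q), QP p q)),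
      (∀ (v η : Fin (n + 1) → ℂ) (hv : v ≠ 0) (h : outer v η ∈ QA (PT p) (QT q)),
        ∑ i, v i * η i = 1 → (ρ ⟨outer v η, h⟩).1 = CP.mk v hv) →
      ∀ o A, GoodSet 𝒱 (QA (PT p) (QT q)) ρ A → GoodSet 𝒱 (QA (PT p) (QT q)) ρ (ops o A))
    {L : CP n → CP n → Prop} {x₀ : CP n} (hx₀ : x₀ ∈ QP p q)
    (hreach : ∀ (v₀ η₀ : Fin (n + 1) → ℂ) (hv₀ : v₀ ≠ 0), CP.mk v₀ hv₀ = x₀ →
      ∑ i, v₀ i * η₀ i = 1 → ∀ x, Relation.ReflTransGen L x₀ x →
      ∀ (v η : Fin (n + 1) → ℂ) (hv : v ≠ 0), CP.mk v hv = x → ∑ i, v i * η i = 1 →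
      ∃ l, outer v η ∈ seqSet ops (outer v₀ η₀) l)
    (hthin : ¬ IsThin (QP p q) {x | Relation.ReflTransGen L x₀ x})
    (x : QP p q) : ∃ H : Subgroup (FundamentalGroup (QP p q) x), H.FiniteIndex ∧ 𝒱.C H := by
  classical
  have : Encodable (List Ω) := Encodable.ofCountable _
  obtain ⟨ρ, hρ⟩ := exists_rho hp hq
  obtain ⟨σ, hσ⟩ := exists_sigma hp hq
  have hsub := isSubm_XT hp hq hs
  have hcon := connected_XT hp hq hc
  have hρσ : ∀ P, ρ (σ P) = P := by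
    intro P
    obtain ⟨v, hv, hP⟩ := mk_surj P.1
    have hX : CP.mk v hv ∈ QP p q := by rw [hP]; exact P.2
    have e1 : P = ⟨CP.mk v hv, hX⟩ := Subtype.ext hP.symm
    rw [e1]
    have h1 : (σ ⟨CP.mk v hv, hX⟩) = ⟨outer v (dual v), outer_mem hp hq (dot_dual hv) hX⟩ :=
      Subtype.ext (hσ v hv hX)
    rw [h1]
    exact Subtype.ext (hρ v (dual v) hv _ (dot_dual hv))
  obtain ⟨v₀, hv₀, rfl⟩ := mk_surj x₀
  have hpcX : PathConnectedSpace (QA (PT p) (QT q)) := pathConnected_of hsub hcon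
  have hpc : PathConnectedSpace (QP p q) :=
    Function.Surjective.pathConnectedSpace (fun P => ⟨σ P, hρσ P⟩) ρ.continuous
  have hsurj : ∀ M, Function.Surjective (FundamentalGroup.map ρ M) := by
    intro M
    refine surj_transfer ρ (PathConnectedSpace.somePath M (σ (ρ M))) ?_
    intro g
    obtain ⟨P, rfl⟩ := Path.Homotopic.Quotient.mk_surjective g
    have hP : ∀ t, ρ (σ (P t)) = P t := fun t => hρσ _
    have hσx : σ (ρ (σ (ρ M))) = σ (ρ M) := by rw [hρσ]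
    refine ⟨Path.Homotopic.Quotient.mk ((P.map σ.continuous).cast hσx.symm hσx.symm), ?_⟩
    refine congrArg Path.Homotopic.Quotient.mk ?_
    ext1
    funext t
    exact hP t
  refine main_abs (L := List Ω) 𝒱 ρ hsurj hsub hcon
    (seqSet ops (outer v₀ (dual v₀))) (fun l => ?_) (fun g hg => ?_) x
  · induction l with
    | nil => exact goodSet_singleton 𝒱 ρ (outer_mem hp hq (dot_dual hv₀) hx₀)
    | cons o l ih => exact hgood ρ hρ o _ ih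
  · obtain ⟨v, η, hv, hvS, hd, hgM⟩ := exists_of_notThin hp hq hthin hc.nonempty g hg
    exact ⟨outer v η, hreach v₀ (dual v₀) hv₀ rfl (dot_dual hv₀) _ hvS v η hv rfl hd, hgM⟩

end

end Pool.Agent.X325.HS
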