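import Mathlib
import Pool.Agent.X325.HS.Ext

/-! The fundamental group of the complex torus belongs to every class of groups which is closed
under subgroups, quotients and extensions and contains the infinite cyclic group. -/

set_option autoImplicit false

open Topology Set unitInterval

namespace Pool.Agent.X325.HS

open Pool.Agent.Y193.CS Pool.Agent.Y193.FG

section

variable {C : ∀ (G : Type) [Group G], Prop}

theorem class_cstar (hC : IsExtClass C) (hZ : C (Multiplicative ℤ)) (x : {z : ℂ // z ≠ 0}) :
    C (FundamentalGroup {z : ℂ // z ≠ 0} x) := by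
  let p : ℂ → {z : ℂ // z ≠ 0} := fun z => ⟨_, z.exp_ne_zero⟩
  let e : p ⁻¹' {x} := ⟨Complex.log x.1, Subtype.ext (Complex.exp_log x.2)⟩
  refine hC.sub _ _ (Complex.isAddQuotientCoveringMap_exp.fundamentalGroupToMulOpposite e)
    (Complex.isAddQuotientCoveringMap_exp.fundamentalGroupToMulOpposite_injective e) ?_
  let a : Multiplicative (AddSubgroup.zmultiples (2 * Real.pi * Complex.I)) :=
    Multiplicative.ofAdd ⟨2 * Real.pi * Complex.I, AddSubgroup.mem_zmultiples _⟩
  refine hC.quot _ _ (zpowersHom _ (MulOpposite.op a)) ?_ hZ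
  rintro ⟨⟨b, m, hm⟩⟩
  refine ⟨Multiplicative.ofAdd m, ?_⟩
  rw [zpowersHom_apply, toAdd_ofAdd, ← MulOpposite.op_zpow]
  congr 1
  apply Multiplicative.toAdd.injective
  apply Subtype.ext
  exact hm

theorem class_pi (hC : IsExtClass C) : ∀ (k : ℕ) (G : Fin k → Type) [∀ j, Group (G j)],
    (∀ j, C (G j)) → C (∀ j, G j) := by
  intro k
  induction k with
  | zero =>
    intro G _ h
    exact hC.sub _ Unit ⟨⟨fun _ => (), rfl⟩, fun _ _ => rfl⟩
      (fun a b _ => funext (fun j => j.elim0)) hC.triv
  | succ k ih =>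
    intro G _ h
    refine hC.sub _ (G 0 × (∀ j : Fin k, G j.succ))
      ⟨⟨fun a => (a 0, fun j => a j.succ), rfl⟩, fun _ _ => rfl⟩ ?_
      (ext_prod hC _ _ (h 0) (ih _ (fun j => h _)))
    intro a b hab
    have h1 : a 0 = b 0 := congrArg Prod.fst hab
    have h2 : ∀ j : Fin k, a j.succ = b j.succ := fun j => congrFun (congrArg Prod.snd hab) j
    funext j
    induction j using Fin.cases with
    | zero => exact h1
    | succ j => exact h2 j

/-- the coordinates of the torus -/
noncomputable def cT (k : ℕ) (j : Fin k) : C(TT k, {z : ℂ // z ≠ 0}) :=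
  ⟨fun t => ⟨t.1 j, t.2 j⟩,
    Continuous.subtype_mk ((continuous_apply j).comp continuous_subtype_val) _⟩

/-- all the coordinates of the torus -/
noncomputable def cA (k : ℕ) : C(TT k, Fin k → {z : ℂ // z ≠ 0}) :=
  ⟨fun t j => cT k j t, continuous_pi (fun j => (cT k j).continuous)⟩

/-- the torus as a subset of `ℂ^k` -/
noncomputable def cB (k : ℕ) : C(Fin k → {z : ℂ // z ≠ 0}, TT k) :=
  ⟨fun f => ⟨fun j => (f j).1, fun j => (f j).2⟩,
    Continuous.subtype_mk (continuous_pi (fun j =>
      continuous_subtype_val.comp (continuous_apply j))) _⟩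

theorem class_TT (hC : IsExtClass C) (hZ : C (Multiplicative ℤ)) (k : ℕ) (y : TT k) :
    C (FundamentalGroup (TT k) y) := by
  refine hC.sub _ (∀ j : Fin k, FundamentalGroup {z : ℂ // z ≠ 0} (cT k j y))
    (MonoidHom.pi (fun j => FundamentalGroup.map (cT k j) y)) ?_
    (class_pi hC k _ (fun j => class_cstar hC hZ _))
  intro g g' hg
  obtain ⟨P, rfl⟩ := Path.Homotopic.Quotient.mk_surjective g
  obtain ⟨P', rfl⟩ := Path.Homotopic.Quotient.mk_surjective g'
  have h1 : ∀ j, Path.Homotopic.Quotient.mk (P.map (cT k j).continuous) =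
      Path.Homotopic.Quotient.mk (P'.map (cT k j).continuous) := fun j => congrFun hg j
  have h2 : Path.Homotopic.Quotient.mk (P.map (cA k).continuous) =
      Path.Homotopic.Quotient.mk (P'.map (cA k).continuous) := by
    have e1 : ∀ Q : Path y y, Path.Homotopic.Quotient.mk (Q.map (cA k).continuous) =
        Path.Homotopic.pi (fun j => Path.Homotopic.Quotient.mk
          (Q.map (cT k j).continuous)) := fun Q => by
      rw [Path.Homotopic.pi_lift]
      rfl
    rw [e1, e1]
    exact congrArg Path.Homotopic.pi (funext h1)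
  have h3 := congrArg (fun r => Path.Homotopic.Quotient.map r (cB k)) h2
  exact h3

end

end Pool.Agent.X325.HS
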