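import Mathlib
import Pool.Agent.X325.HS.MainF
import Pool.Agent.X325.HS.Tor

/-! Fundamental groups of quasi-projective varieties connected by the fibres of algebraic
families: the final theorems. -/

set_option autoImplicit false

open Topology Set

namespace Pool.Agent.X325.HS

open Pool.Agent.Y193.CS Pool.Agent.Y193.FG

/-- `φ : 𝒴 → X` is a family of maps, given on the algebraic set `𝒴` and parametrised by the values
of the functions `π`, whose fibres are connected by paths and can be transported along paths of the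
base -/
structure IsTestFamily {n : ℕ} {X : Set (CP n)} {r a : ℕ} (𝒴 : Set (Fin r → ℂ))
    (π : Fin a → MvPolynomial (Fin r) ℂ) (φ : C(𝒴, X)) : Prop where
  algebraic : IsAlgebraic' 𝒴
  regular : IsRegularMap 𝒴 (fun y => (φ y).1)
  connected : ∀ y ∈ 𝒴, IsPathConnected (Fib 𝒴 π y)
  transport : HasTransport 𝒴 π

/-- for all the fibres `Y_b` of the family, the image of `π₁(Y_b)` in `π₁(X)` belongs to the class
`C` -/
def FibreImagesIn {n : ℕ} {X : Set (CP n)} {r a : ℕ} (𝒴 : Set (Fin r → ℂ))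
    (π : Fin a → MvPolynomial (Fin r) ℂ) (φ : C(𝒴, X)) (C : ∀ (G : Type) [Group G], Prop) : Prop :=
  ∀ y ∈ 𝒴, PiImageIn C (toFib (π := π) φ y)

section

variable {n : ℕ} {ι κ : Type} [Fintype κ] {p : ι → MvPolynomial (Fin (n + 1)) ℂ}
  {q : κ → MvPolynomial (Fin (n + 1)) ℂ}

theorem exists_F' {K : Type} {r a : K → ℕ} {𝒴 : ∀ k, Set (Fin (r k) → ℂ)}
    {π : ∀ k, Fin (a k) → MvPolynomial (Fin (r k)) ℂ} {φ : ∀ k, C(𝒴 k, QP p q)}
    (hF : ∀ k, IsTestFamily (𝒴 k) (π k) (φ k)) :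
    ∃ F : ∀ k, Fin (n + 1) × Fin (n + 1) → MvPolynomial (Fin (r k)) ℂ,
      ∀ k (y : 𝒴 k), ∃ (v η : Fin (n + 1) → ℂ) (hv : v ≠ 0), (φ k y).1 = CP.mk v hv ∧
      ∑ i, v i * η i = 1 ∧ (fun b => MvPolynomial.eval y.1 (F k b)) = outer v η := by
  choose F hF' using fun k => lift_regular (hF k).algebraic (hF k).regular
  exact ⟨F, hF'⟩

variable {C : ∀ (G : Type) [Group G], Prop}

theorem good_fam (hC : IsExtClass C) (hp : ∀ i, ∃ d, (p i).IsHomogeneous d)
    (hq : ∀ j, ∃ d, (q j).IsHomogeneous d) {r a : ℕ} {𝒴 : Set (Fin r → ℂ)}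
    {π : Fin a → MvPolynomial (Fin r) ℂ} {φ : C(𝒴, QP p q)}
    (hfam : IsTestFamily 𝒴 π φ) (hV : FibreImagesIn 𝒴 π φ C)
    {F : Fin (n + 1) × Fin (n + 1) → MvPolynomial (Fin r) ℂ}
    (hF : ∀ (y : 𝒴), ∃ (v η : Fin (n + 1) → ℂ) (hv : v ≠ 0), (φ y).1 = CP.mk v hv ∧
      ∑ i, v i * η i = 1 ∧ (fun b => MvPolynomial.eval y.1 (F b)) = outer v η)
    {ρ : C(QA (PT p) (QT q), QP p q)}
    (hρ : ∀ (v η : Fin (n + 1) → ℂ) (hv : v ≠ 0) (h : outer v η ∈ QA (PT p) (QT q)),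
        ∑ i, v i * η i = 1 → (ρ ⟨outer v η, h⟩).1 = CP.mk v hv)
    {A : Set (Fin (n + 1) × Fin (n + 1) → ℂ)}
    (hA : GoodSet (ePClass hC) (QA (PT p) (QT q)) ρ A) :
    GoodSet (ePClass hC) (QA (PT p) (QT q)) ρ (famSet 𝒴 π F A) := by
  have hFm : ∀ y ∈ 𝒴, (fun i => MvPolynomial.eval y (F i)) ∈ QA (PT p) (QT q) := by
    intro y hy
    obtain ⟨v, η, hv, h1, h2, h3⟩ := hF ⟨y, hy⟩
    have h4 : (fun i => MvPolynomial.eval y (F i)) = outer v η := h3
    rw [h4]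
    exact outer_mem hp hq (hv := hv) h2 (by rw [← h1]; exact (φ ⟨y, hy⟩).2)
  have hφ : ρ.comp (pmap F hFm) = φ := by
    ext y
    obtain ⟨v, η, hv, h1, h2, h3⟩ := hF y
    have hm : outer v η ∈ QA (PT p) (QT q) := by
      rw [← h3]
      exact hFm y.1 y.2
    have e1 : pmap F hFm y = ⟨outer v η, hm⟩ := Subtype.ext h3
    show (ρ (pmap F hFm y)).1 = (φ y).1
    rw [e1, h1]
    exact hρ v η hv hm h2
  refine goodSet_fam hC ρ hfam.algebraic hfam.connected hfam.transport F hFm ?_ hA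
  rw [hφ]
  exact fun y hy z => hV y hy z

theorem good_step (hC : IsExtClass C) (hp : ∀ i, ∃ d, (p i).IsHomogeneous d)
    (hq : ∀ j, ∃ d, (q j).IsHomogeneous d) {K : Type} {r : K → ℕ}
    {Y : ∀ k, Set (Fin (r k) → ℂ)} (hYa : ∀ k, AlgSet (Y k)) (hYc : ∀ k, IsPathConnected (Y k))
    (hYV : ImagesIn (QP p q) Y C) {ρ : C(QA (PT p) (QT q), QP p q)}
    (hρ : ∀ (v η : Fin (n + 1) → ℂ) (hv : v ≠ 0) (h : outer v η ∈ QA (PT p) (QT q)),
        ∑ i, v i * η i = 1 → (ρ ⟨outer v η, h⟩).1 = CP.mk v hv) (b : Option K × ℕ)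
    {A : Set (Fin (n + 1) × Fin (n + 1) → ℂ)}
    (hA : GoodSet (ePClass hC) (QA (PT p) (QT q)) ρ A) :
    GoodSet (ePClass hC) (QA (PT p) (QT q)) ρ
      (stepSet (PT p) (QT q) (YT Y b.1) b.2 A) := by
  obtain ⟨k, d⟩ := b
  refine goodSet_step (ePClass hC) ρ (algSet_YT hYa k) ?_ ?_ d hA
  · rcases k with _ | k
    · exact isPathConnected_univ
    · exact hYc k
  · rcases k with _ | k
    · intro f hf y
      have : ContractibleSpace (YT Y none) :=
        (Homeomorph.Set.univ (Fin 1 → ℂ)).contractibleSpace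
      have := subsingleton_pi1 y
      exact (ePClass hC).of_surjective (FundamentalGroup.map (ρ.comp (pmap f hf)) y).rangeRestrict
        (MonoidHom.rangeRestrict_surjective _) (class_subsingleton (ePClass hC))
    · intro f hf y
      exact hYV k (ρ.comp (pmap f hf)) (isRegular_rho hp hq hρ f hf) y

/-- chains of images of test varieties and of fibres of families -/
theorem main_families (hp : ∀ i, ∃ d, (p i).IsHomogeneous d)
    (hq : ∀ j, ∃ d, (q j).IsHomogeneous d) (hs : IsSmooth (QP p q)) (hc : IsConnected (QP p q))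
    {K₀ : Type} [Countable K₀] {r₀ : K₀ → ℕ} {Y : ∀ k, Set (Fin (r₀ k) → ℂ)}
    (hYa : ∀ k, IsAlgebraic' (Y k)) (hYc : ∀ k, IsPathConnected (Y k))
    {K : Type} [Countable K] {r a : K → ℕ} {𝒴 : ∀ k, Set (Fin (r k) → ℂ)}
    {π : ∀ k, Fin (a k) → MvPolynomial (Fin (r k)) ℂ} {φ : ∀ k, C(𝒴 k, QP p q)}
    (hF : ∀ k, IsTestFamily (𝒴 k) (π k) (φ k)) (hC : IsExtClass C)
    (hY : ImagesIn (QP p q) Y C) (hFC : ∀ k, FibreImagesIn (𝒴 k) (π k) (φ k) C)
    {x₀ : CP n} (hx₀ : x₀ ∈ QP p q)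
    (hthin : ¬ IsThin (QP p q) {x | Relation.ReflTransGen
      (fun x x' => Linked (QP p q) Y x x' ∨ FamLinked (QP p q) 𝒴 π φ x x') x₀ x})
    (x : QP p q) : Virtually C (FundamentalGroup (QP p q) x) := by
  obtain ⟨F, hF'⟩ := exists_F' hF
  refine main_ops (ePClass hC) hp hq hs hc (Ω := (Option K₀ × ℕ) ⊕ K)
    (ops := fun o A => Sum.elim (fun b => stepSet (PT p) (QT q) (YT Y b.1) b.2 A)
      (fun k => famSet (𝒴 k) (π k) (F k) A) o) (fun ρ hρ o A hA => ?_) hx₀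
    (fun v₀ η₀ hv₀ hv h₀ x hx => ?_) hthin x
  · rcases o with b | k
    · exact good_step hC hp hq hYa hYc hY hρ b hA
    · exact good_fam hC hp hq (hF k) (hFC k) (hF' k) hρ hA
  · subst hv
    exact reach_gen hp hq hYa hF' (fun A M M' hM hl => by
        obtain ⟨b, hb⟩ := step_of_link hYa hM hl
        exact ⟨Sum.inl b, hb⟩)
      (fun k A => ⟨Sum.inr k, Subset.rfl⟩)
      (fun x x' h => h.elim Or.inl (fun h => Or.inr (Or.inl h))) hx₀ h₀ hx

/-- the same with closures of entire curves and of images of tori -/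
theorem main_families_mixed (hp : ∀ i, ∃ d, (p i).IsHomogeneous d)
    (hq : ∀ j, ∃ d, (q j).IsHomogeneous d) (hs : IsSmooth (QP p q)) (hc : IsConnected (QP p q))
    {K₀ : Type} [Countable K₀] {r₀ : K₀ → ℕ} {Y : ∀ k, Set (Fin (r₀ k) → ℂ)}
    (hYa : ∀ k, IsAlgebraic' (Y k)) (hYc : ∀ k, IsPathConnected (Y k))
    {K : Type} [Countable K] {r a : K → ℕ} {𝒴 : ∀ k, Set (Fin (r k) → ℂ)}
    {π : ∀ k, Fin (a k) → MvPolynomial (Fin (r k)) ℂ} {φ : ∀ k, C(𝒴 k, QP p q)}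
    (hF : ∀ k, IsTestFamily (𝒴 k) (π k) (φ k)) (hC : IsExtClass C)
    (hZ : C (Multiplicative ℤ))
    (hY : ImagesIn (QP p q) Y C) (hFC : ∀ k, FibreImagesIn (𝒴 k) (π k) (φ k) C)
    {x₀ : CP n} (hx₀ : x₀ ∈ QP p q)
    (hthin : ¬ IsThin (QP p q) {x | Relation.ReflTransGen
      (fun x x' => MixedLinked p q Y x x' ∨ FamLinked (QP p q) 𝒴 π φ x x') x₀ x})
    (x : QP p q) : Virtually C (FundamentalGroup (QP p q) x) := by
  obtain ⟨F, hF'⟩ := exists_F' hF
  refine main_ops (ePClass hC) hp hq hs hc (Ω := Code ⊕ ((Option K₀ × ℕ) ⊕ K))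
    (ops := fun o A => Sum.elim (fun c => parcSet p q c A)
      (Sum.elim (fun b => stepSet (PT p) (QT q) (YT Y b.1) b.2 A)
      (fun k => famSet (𝒴 k) (π k) (F k) A)) o) (fun ρ hρ o A hA => ?_) hx₀
    (fun v₀ η₀ hv₀ hv h₀ x hx => ?_) hthin x
  · rcases o with c | b | k
    · exact goodSet_parc' (ePClass hC) hp hq hρ c hA (fun k φ y =>
        (ePClass hC).of_surjective (FundamentalGroup.map φ y).rangeRestrict
          (MonoidHom.rangeRestrict_surjective _) (class_TT hC hZ k y))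
    · exact good_step hC hp hq hYa hYc hY hρ b hA
    · exact good_fam hC hp hq (hF k) (hFC k) (hF' k) hρ hA
  · subst hv
    refine reach_gen hp hq hYa hF' (fun A M M' hM hl => by
        obtain ⟨b, hb⟩ := step_of_link hYa hM hl
        exact ⟨Sum.inr (Sum.inl b), hb⟩)
      (fun k A => ⟨Sum.inr (Sum.inr k), Subset.rfl⟩)
      (fun x x' h => ?_) hx₀ h₀ hx
    rcases h with (h | h | h) | h
    · refine Or.inr (Or.inr (fun v η v' η' hv hv' hx hx' hd hd' A hA => ?_))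
      obtain ⟨c, hc⟩ := step_of_plink hp hq (hv' := hv') (plink_of_ent hp hq h hv hv' hx hx')
        (by rw [hx']; exact h.2.1) hA hd hd'
      exact ⟨Sum.inl c, hc⟩
    · refine Or.inr (Or.inr (fun v η v' η' hv hv' hx hx' hd hd' A hA => ?_))
      obtain ⟨c, hc⟩ := step_of_plink hp hq (hv' := hv')
        (plink_of_torusLinked hp hq h hv hv' hx hx')
        (by rw [hx']; exact h.2.1) hA hd hd'
      exact ⟨Sum.inl c, hc⟩
    · exact Or.inl h
    · exact Or.inr (Or.inl h)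

end

end Pool.Agent.X325.HS
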