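import Mathlib
import Pool.Agent.X325.HS.FinF

/-! The step of a chain given by the regular maps from a variety which is glued from finitely many
affine charts. -/

set_option autoImplicit false

open Topology Set

namespace Pool.Agent.X325.HS

open Pool.Agent.Y193.CS Pool.Agent.Y193.FG

section

variable {T : Type} {ι μ : Type} [Fintype μ]

/-- the points reached from `A` by a regular map of degree at most `d` of the variety glued from
the charts `Y i` by the relations `R i j` -/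
def glueSet (p : ι → MvPolynomial T ℂ) (q : μ → MvPolynomial T ℂ)
    (H : Set (MvPolynomial (T ⊕ T) ℂ)) {I : Type} {r : ℕ} (Y : I → Set (Fin r → ℂ))
    (R : I → I → Set ((Fin r → ℂ) × (Fin r → ℂ))) (i₀ : I) (d : ℕ) (A : Set (T → ℂ)) :
    Set (T → ℂ) :=
  {x' | ∃ (c : I → T → (Fin r → Fin (d + 1)) → ℂ) (g : I → μ → (Fin r → Fin (d + 1)) → ℂ),
    (∀ i, ∀ z ∈ Y i, ∀ k, MvPolynomial.eval (fun l => bev (c i l) z) (p k) = 0) ∧
    (∀ i, ∀ z ∈ Y i, ∑ j, bev (g i j) z *
      MvPolynomial.eval (fun l => bev (c i l) z) (q j) = 1) ∧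
    (∀ i j, ∀ z ∈ R i j, ∀ h ∈ H, MvPolynomial.eval
      (Sum.elim (fun l => bev (c i l) z.1) (fun l => bev (c j l) z.2)) h = 0) ∧
    ∃ y ∈ Y i₀, ∃ y' ∈ Y i₀, (fun l => bev (c i₀ l) y) ∈ A ∧ (fun l => bev (c i₀ l) y') = x'}

theorem goodSet_glue [Fintype T] (𝒱 : PClass) {p : ι → MvPolynomial T ℂ}
    {q : μ → MvPolynomial T ℂ} {Z : Type} [TopologicalSpace Z] (ρ : C(QA p q, Z))
    (H : Set (MvPolynomial (T ⊕ T) ℂ)) {I : Type} [Finite I] {r : ℕ}
    (Y : I → Set (Fin r → ℂ)) (R : I → I → Set ((Fin r → ℂ) × (Fin r → ℂ))) (i₀ : I)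
    (hYa : AlgSet (Y i₀)) (hYc : IsPathConnected (Y i₀))
    (hYV : ∀ (f : I → T → MvPolynomial (Fin r) ℂ)
      (hf : ∀ i, ∀ y ∈ Y i, (fun l => MvPolynomial.eval y (f i l)) ∈ QA p q),
      (∀ i j, ∀ z ∈ R i j, ∀ h ∈ H, MvPolynomial.eval
        (Sum.elim (fun l => MvPolynomial.eval z.1 (f i l))
          (fun l => MvPolynomial.eval z.2 (f j l))) h = 0) → ∀ (y : Y i₀),
      𝒱.C (FundamentalGroup.map (ρ.comp (pmap (f i₀) (hf i₀))) y).range) (d : ℕ)
    {A : Set (T → ℂ)} (hA : GoodSet 𝒱 (QA p q) ρ A) :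
    GoodSet 𝒱 (QA p q) ρ (glueSet p q H Y R i₀ d A) := by
  classical
  obtain ⟨J, hJ, W, hW, e, he, hcov, hkill⟩ := hA
  let E : Type := Fin r → Fin (d + 1)
  let J' : Type := J ⊕ ((I × (T × E)) ⊕ ((I × (μ × E)) ⊕ (Fin r ⊕ Fin r)))
  let cw : (J' → ℂ) → J → ℂ := fun w j => w (Sum.inl j)
  let cc : (J' → ℂ) → I → T → E → ℂ := fun w i l α => w (Sum.inr (Sum.inl (i, (l, α))))
  let cg : (J' → ℂ) → I → μ → E → ℂ := fun w i l α => w (Sum.inr (Sum.inr (Sum.inl (i, (l, α)))))
  let cy : (J' → ℂ) → Fin r → ℂ := fun w l => w (Sum.inr (Sum.inr (Sum.inr (Sum.inl l))))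
  let cz : (J' → ℂ) → Fin r → ℂ := fun w l => w (Sum.inr (Sum.inr (Sum.inr (Sum.inr l))))
  let W' : Set (J' → ℂ) := {w | cw w ∈ W} ∩ {w | cy w ∈ Y i₀} ∩ {w | cz w ∈ Y i₀} ∩
    (⋂ l, {w | bev (cc w i₀ l) (cy w) - MvPolynomial.eval (cw w) (e l) = 0}) ∩
    (⋂ i, ⋂ z : Y i, ⋂ k, {w | MvPolynomial.eval (fun l => bev (cc w i l) z.1) (p k) = 0}) ∩
    (⋂ i, ⋂ z : Y i, {w | ∑ j, bev (cg w i j) z.1 *
      MvPolynomial.eval (fun l => bev (cc w i l) z.1) (q j) - 1 = 0}) ∩
    (⋂ i, ⋂ j, ⋂ z : R i j, ⋂ h : H, {w | MvPolynomial.eval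
      (Sum.elim (fun l => bev (cc w i l) z.1.1) (fun l => bev (cc w j l) z.1.2)) h.1 = 0})
  have hfz : ∀ (i : I) (z : Fin r → ℂ) (l : T), PolyF (fun w : J' → ℂ => bev (cc w i l) z) :=
    fun i z l => polyF_bev (fun α => PolyF.coord _) (fun j => PolyF.const _)
  have hgz : ∀ (i : I) (z : Fin r → ℂ) (l : μ), PolyF (fun w : J' → ℂ => bev (cg w i l) z) :=
    fun i z l => polyF_bev (fun α => PolyF.coord _) (fun j => PolyF.const _)
  have hW' : AlgSet W' := by
    refine (((((AlgSet.inter ?_ ?_).inter ?_).inter ?_).inter ?_).inter ?_).inter ?_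
    · exact hW.preimage (fun j => PolyF.coord _)
    · exact hYa.preimage (fun j => PolyF.coord _)
    · exact hYa.preimage (fun j => PolyF.coord _)
    · refine AlgSet.iInter (fun l => AlgSet.zero (PolyF.sub ?_ ?_))
      · exact polyF_bev (fun α => PolyF.coord _) (fun j => PolyF.coord _)
      · exact PolyF.comp (fun j => PolyF.coord _) _
    · exact AlgSet.iInter (fun i => AlgSet.iInter (fun z => AlgSet.iInter (fun k => AlgSet.zero
        (PolyF.comp (fun l => hfz i z.1 l) _))))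
    · refine AlgSet.iInter (fun i => AlgSet.iInter (fun z => AlgSet.zero (PolyF.sub
        (PolyF.sum _ (fun j => (hgz i z.1 j).mul (PolyF.comp (fun l => hfz i z.1 l) _)))
        (PolyF.const 1))))
    · refine AlgSet.iInter (fun i => AlgSet.iInter (fun j => AlgSet.iInter (fun z =>
        AlgSet.iInter (fun h => AlgSet.zero (PolyF.comp (φ := fun l w => (Sum.elim
          (fun l => bev (cc w i l) z.1.1) (fun l => bev (cc w j l) z.1.2) : T ⊕ T → ℂ) l)
          (fun l => ?_) _)))))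
      rcases l with l | l
      · exact hfz i z.1.1 l
      · exact hfz j z.1.2 l
  have he'ex : ∀ l : T, PolyF (fun w : J' → ℂ => bev (cc w i₀ l) (cz w)) := fun l =>
    polyF_bev (fun α => PolyF.coord _) (fun j => PolyF.coord _)
  choose e' he'ev using he'ex
  -- membership
  have hmem : ∀ w : J' → ℂ, w ∈ W' ↔ (cw w ∈ W ∧ cy w ∈ Y i₀ ∧ cz w ∈ Y i₀ ∧
      (∀ l, bev (cc w i₀ l) (cy w) = MvPolynomial.eval (cw w) (e l)) ∧
      (∀ i, ∀ z ∈ Y i, ∀ k, MvPolynomial.eval (fun l => bev (cc w i l) z) (p k) = 0) ∧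
      (∀ i, ∀ z ∈ Y i, ∑ j, bev (cg w i j) z *
        MvPolynomial.eval (fun l => bev (cc w i l) z) (q j) = 1) ∧
      (∀ i j, ∀ z ∈ R i j, ∀ h ∈ H, MvPolynomial.eval
        (Sum.elim (fun l => bev (cc w i l) z.1) (fun l => bev (cc w j l) z.2)) h = 0)) := by
    intro w
    constructor
    · rintro ⟨⟨⟨⟨⟨⟨h1, h2⟩, h3⟩, h4⟩, h5⟩, h6⟩, h7⟩
      simp only [mem_iInter, Subtype.forall] at h4 h5 h6 h7
      exact ⟨h1, h2, h3, fun l => sub_eq_zero.mp (h4 l), fun i z hz k => h5 i z hz k,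
        fun i z hz => sub_eq_zero.mp (h6 i z hz), fun i j z hz h hh => h7 i j z hz h hh⟩
    · rintro ⟨h1, h2, h3, h4, h5, h6, h7⟩
      refine ⟨⟨⟨⟨⟨⟨h1, h2⟩, h3⟩, ?_⟩, ?_⟩, ?_⟩, ?_⟩
      · simp only [mem_iInter]
        exact fun l => sub_eq_zero.mpr (h4 l)
      · simp only [mem_iInter, Subtype.forall]
        exact fun i z hz k => h5 i z hz k
      · simp only [mem_iInter, Subtype.forall]
        exact fun i z hz => sub_eq_zero.mpr (h6 i z hz)
      · simp only [mem_iInter, Subtype.forall]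
        exact fun i j z hz h hh => h7 i j z hz h hh
  have hin : ∀ w ∈ W', ∀ i, ∀ z ∈ Y i, (fun l => bev (cc w i l) z) ∈ QA p q := by
    intro w hw i z hz
    obtain ⟨h1, h2, h3, h4, h5, h6, h7⟩ := (hmem w).mp hw
    exact mem_QA_of (h5 i z hz) (h6 i z hz)
  have he' : ∀ w ∈ W', (fun i => MvPolynomial.eval w (e' i)) ∈ QA p q := by
    intro w hw
    have h7 : (fun i => MvPolynomial.eval w (e' i)) = fun l => bev (cc w i₀ l) (cz w) :=
      funext (fun l => (he'ev l w).symm)
    rw [h7]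
    exact hin w hw i₀ _ ((hmem w).mp hw).2.2.1
  have hfinJ : Finite J' := inferInstance
  refine ⟨J', hfinJ, W', hW', e', he', ?_, ?_⟩
  · rintro x' ⟨c, g, h5, h6, h7, y, hy, y', hy', hA, rfl⟩
    obtain ⟨w, hw, hwe⟩ := hcov _ hA
    let w' : J' → ℂ := Sum.elim w (Sum.elim (fun a => c a.1 a.2.1 a.2.2)
      (Sum.elim (fun a => g a.1 a.2.1 a.2.2) (Sum.elim y y')))
    refine ⟨w', (hmem w').mpr ⟨hw, hy, hy', fun l => (congrFun hwe l).symm, h5, h6, h7⟩, ?_⟩
    funext l
    exact (he'ev l w').symm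
  · intro w
    let pr : C(W', W) := ⟨fun w => ⟨cw w.1, ((hmem w.1).mp w.2).1⟩, by
      refine Continuous.subtype_mk (continuous_pi (fun j => ?_)) _
      exact (continuous_apply _).comp continuous_subtype_val⟩
    let s : C(W', Y i₀) := ⟨fun w => ⟨cy w.1, ((hmem w.1).mp w.2).2.1⟩, by
      refine Continuous.subtype_mk (continuous_pi (fun j => ?_)) _
      exact (continuous_apply _).comp continuous_subtype_val⟩
    let s' : C(W', Y i₀) := ⟨fun w => ⟨cz w.1, ((hmem w.1).mp w.2).2.2.1⟩, by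
      refine Continuous.subtype_mk (continuous_pi (fun j => ?_)) _
      exact (continuous_apply _).comp continuous_subtype_val⟩
    let Φ : C(W' × Y i₀, QA p q) := ⟨fun a => ⟨fun l => bev (cc a.1.1 i₀ l) a.2.1,
      hin a.1.1 a.1.2 i₀ a.2.1 a.2.2⟩, by
      refine Continuous.subtype_mk (continuous_pi (fun l => ?_)) _
      refine continuous_bev.comp (Continuous.prodMk (continuous_pi (fun α => ?_)) ?_)
      · exact (continuous_apply _).comp (continuous_subtype_val.comp continuous_fst)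
      · exact continuous_subtype_val.comp continuous_snd⟩
    have hs : Φ.comp ((ContinuousMap.id W').prodMk s) = (pmap e he).comp pr := by
      ext w l
      exact ((hmem w.1).mp w.2).2.2.2.1 l
    have hs' : pmap e' he' = Φ.comp ((ContinuousMap.id W').prodMk s') := by
      ext w l
      exact (he'ev l w.1).symm
    have cong : ∀ (F F' : C(W', Z)) (P : Path w w), F = F' →
        Path.Homotopic.Quotient.map (Path.Homotopic.Quotient.mk P) F' =
          Path.Homotopic.Quotient.refl _ →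
        Path.Homotopic.Quotient.map (Path.Homotopic.Quotient.mk P) F =
          Path.Homotopic.Quotient.refl _ := by
      rintro F _ P rfl h
      exact h
    have hpc : PathConnectedSpace (Y i₀) := isPathConnected_iff_pathConnectedSpace.mp hYc
    -- the slice is a polynomial map
    have hfw : ∀ (i : I) (l : T), ∃ F : MvPolynomial (Fin r) ℂ, ∀ z, bev (cc w.1 i l) z =
        MvPolynomial.eval z F := fun i l => by
      obtain ⟨F, hF⟩ := polyF_bev (J := Fin r) (c := fun α _ => cc w.1 i l α)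
        (y := fun j z => z j) (fun α => PolyF.const _) (fun j => PolyF.coord _)
      exact ⟨F, hF⟩
    choose fw hfw using hfw
    have hfwe : ∀ i y, (fun l => MvPolynomial.eval y (fw i l)) = fun l => bev (cc w.1 i l) y :=
      fun i y => funext (fun l => (hfw i l y).symm)
    have hfwm : ∀ i, ∀ y ∈ Y i, (fun l => MvPolynomial.eval y (fw i l)) ∈ QA p q := by
      intro i y hy
      rw [hfwe]
      exact hin w.1 w.2 i y hy
    have hfwR : ∀ i j, ∀ z ∈ R i j, ∀ h ∈ H, MvPolynomial.eval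
        (Sum.elim (fun l => MvPolynomial.eval z.1 (fw i l))
          (fun l => MvPolynomial.eval z.2 (fw j l))) h = 0 := by
      intro i j z hz h hh
      rw [hfwe, hfwe]
      exact ((hmem w.1).mp w.2).2.2.2.2.2.2 i j z hz h hh
    have hsl : ρ.comp (pmap (fw i₀) (hfwm i₀)) = slice (ρ.comp Φ) w := by
      ext y
      refine congrArg ρ (Subtype.ext ?_)
      funext l
      exact (hfw i₀ l y.1).symm
    have hC : ∀ y : Y i₀, 𝒱.C (FundamentalGroup.map (slice (ρ.comp Φ) w) y).range := by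
      intro y
      have := hYV fw hfwm hfwR y
      rw [hsl] at this
      exact this
    refine 𝒱.range_of_ker _ ((((FundamentalGroup.map (ρ.comp (pmap e he)) (pr w)).rangeRestrict.comp
      (FundamentalGroup.map pr w)).prod
      (((FundamentalGroup.map (slice (ρ.comp Φ) w) (s w)).rangeRestrict.comp
        (FundamentalGroup.map s w)).prod
      ((FundamentalGroup.map (slice (ρ.comp Φ) w) (s' w)).rangeRestrict.comp
        (FundamentalGroup.map s' w))))) (fun g hg => ?_)
      (𝒱.prod (hkill (pr w)) (𝒱.prod (hC _) (hC _)))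
    obtain ⟨P, rfl⟩ := Path.Homotopic.Quotient.mk_surjective g
    have hg1 := congrArg (fun z => z.1.1) hg
    have hg2 := congrArg (fun z => z.2.1.1) hg
    have hg3 := congrArg (fun z => z.2.2.1) hg
    have h1 : Path.Homotopic.Quotient.map (Path.Homotopic.Quotient.mk P)
        ((ρ.comp (pmap e he)).comp pr) = Path.Homotopic.Quotient.refl _ := by
      rw [Path.Homotopic.Quotient.map_comp]
      exact hg1
    have hs1 : (ρ.comp Φ).comp ((ContinuousMap.id W').prodMk s) =
        (ρ.comp (pmap e he)).comp pr := congrArg (fun F => ρ.comp F) hs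
    have hs2 : ρ.comp (pmap e' he') = (ρ.comp Φ).comp ((ContinuousMap.id W').prodMk s') :=
      congrArg (fun F => ρ.comp F) hs'
    exact cong _ _ P hs2 (step (ρ.comp Φ) s s' (Path.Homotopic.Quotient.mk P)
      (PathConnectedSpace.somePath _ _) (cong _ _ P hs1 h1) hg2 hg3)

end

end Pool.Agent.X325.HS
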