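import Mathlib
import Pool.Agent.X325.HS.Glue

/-! Fundamental groups of quasi-projective varieties connected by images of test varieties glued
from affine charts. -/

set_option autoImplicit false

open Topology Set

namespace Pool.Agent.X325.HS

open Pool.Agent.Y193.CS Pool.Agent.Y193.FG

/-- the maps `φ i` of the charts `Y i` are regular and agree on the points `z ∈ R i j`, which are
identified -/
structure IsGlueMap {n : ℕ} {I : Type} {r : ℕ} (Y : I → Set (Fin r → ℂ))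
    (R : I → I → Set ((Fin r → ℂ) × (Fin r → ℂ))) (φ : ∀ i, Y i → CP n) : Prop where
  regular : ∀ i, IsRegularMap (Y i) (φ i)
  compat : ∀ i j, ∀ z ∈ R i j, ∀ (h1 : z.1 ∈ Y i) (h2 : z.2 ∈ Y j),
    φ i ⟨z.1, h1⟩ = φ j ⟨z.2, h2⟩

/-- `x` and `x'` lie in the image of the chart `Y i₀` under a regular map to `X` of the variety
glued from the charts `Y i` -/
def GlueLinked {n : ℕ} (X : Set (CP n)) {I : Type} {r : ℕ} (Y : I → Set (Fin r → ℂ))
    (R : I → I → Set ((Fin r → ℂ) × (Fin r → ℂ))) (i₀ : I) (x x' : CP n) : Prop :=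
  ∃ φ : ∀ i, Y i → CP n, IsGlueMap Y R φ ∧ (∀ i y, φ i y ∈ X) ∧ x ∈ range (φ i₀) ∧
    x' ∈ range (φ i₀)

/-- for all regular maps to `X` of the variety glued from the charts `Y i`, the image of
`π₁(Y i₀)` in `π₁(X)` belongs to the class `C` -/
def GlueImagesIn {n : ℕ} (X : Set (CP n)) {I : Type} {r : ℕ} (Y : I → Set (Fin r → ℂ))
    (R : I → I → Set ((Fin r → ℂ) × (Fin r → ℂ))) (i₀ : I) (C : ∀ (G : Type) [Group G], Prop) :
    Prop :=
  ∀ φ : ∀ i, C(Y i, X), IsGlueMap Y R (fun i y => (φ i y).1) → PiImageIn C (φ i₀)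

section

variable {n : ℕ}

/-- the equations `M M' = M'` -/
noncomputable def HM (n : ℕ) : Set (MvPolynomial ((Fin (n + 1) × Fin (n + 1)) ⊕
    (Fin (n + 1) × Fin (n + 1))) ℂ) :=
  range (fun x : Fin (n + 1) × Fin (n + 1) => ∑ b, MvPolynomial.X (Sum.inl (x.1, b)) *
    MvPolynomial.X (Sum.inr (b, x.2)) - MvPolynomial.X (Sum.inr x))

theorem eval_HM (M M' : Fin (n + 1) × Fin (n + 1) → ℂ) (x : Fin (n + 1) × Fin (n + 1)) :
    MvPolynomial.eval (Sum.elim M M') (∑ b, MvPolynomial.X (Sum.inl (x.1, b)) *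
    MvPolynomial.X (Sum.inr (b, x.2)) - MvPolynomial.X (Sum.inr x)) =
    ∑ b, M (x.1, b) * M' (b, x.2) - M' x := by
  simp [map_sub, map_sum, map_mul]

theorem HM_outer {v η v' η' : Fin (n + 1) → ℂ} (h : ∃ c : ℂ, v' = c • v)
    (hd : ∑ i, v i * η i = 1) : ∀ g ∈ HM n,
    MvPolynomial.eval (Sum.elim (outer v η) (outer v' η')) g = 0 := by
  rintro _ ⟨x, rfl⟩
  obtain ⟨c, rfl⟩ := h
  show MvPolynomial.eval (Sum.elim (outer v η) (outer (c • v) η')) (∑ b,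
    MvPolynomial.X (Sum.inl (x.1, b)) * MvPolynomial.X (Sum.inr (b, x.2)) -
      MvPolynomial.X (Sum.inr x)) = 0
  rw [eval_HM]
  have h1 : ∀ b, outer v η (x.1, b) * outer (c • v) η' (b, x.2) =
      (v b * η b) * (c * v x.1 * η' x.2) := by
    intro b
    show (v x.1 * η b) * ((c • v) b * η' x.2) = _
    rw [Pi.smul_apply, smul_eq_mul]
    ring
  rw [Finset.sum_congr rfl (fun b _ => h1 b), ← Finset.sum_mul, hd]
  show 1 * (c * v x.1 * η' x.2) - (c • v) x.1 * η' x.2 = 0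
  rw [Pi.smul_apply, smul_eq_mul]
  ring

theorem outer_HM {v η v' η' : Fin (n + 1) → ℂ} (hη' : η' ≠ 0)
    (h : ∀ g ∈ HM n, MvPolynomial.eval (Sum.elim (outer v η) (outer v' η')) g = 0) :
    ∃ c : ℂ, v' = c • v := by
  obtain ⟨k, hk⟩ := Function.ne_iff.mp hη'
  refine ⟨∑ b, η b * v' b, funext (fun a => ?_)⟩
  have h1 := h _ ⟨(a, k), rfl⟩
  have h2 := (eval_HM (outer v η) (outer v' η') (a, k)).symm.trans h1
  have h3 : ∀ b, outer v η (a, b) * outer v' η' (b, k) = (η b * v' b) * (v a * η' k) := by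
    intro b
    show (v a * η b) * (v' b * η' k) = _
    ring
  rw [Finset.sum_congr rfl (fun b _ => h3 b), ← Finset.sum_mul] at h2
  have h4 : outer v' η' (a, k) = v' a * η' k := rfl
  rw [h4] at h2
  have hk' : η' k ≠ 0 := hk
  have h5 : ((∑ b, η b * v' b) * v a - v' a) * η' k = 0 := by linear_combination h2
  rcases mul_eq_zero.mp h5 with h6 | h6
  · rw [Pi.smul_apply, smul_eq_mul]
    exact (sub_eq_zero.mp h6).symm
  · exact absurd h6 hk'

theorem mk_eq_of_smul {v v' : Fin (n + 1) → ℂ} {hv : v ≠ 0} {hv' : v' ≠ 0}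
    (h : ∃ c : ℂ, v' = c • v) : CP.mk v hv = CP.mk v' hv' := by
  obtain ⟨c, hc⟩ := h
  have h0 : c ≠ 0 := by
    rintro rfl
    exact hv' (by rw [hc, zero_smul])
  refine (mk_eq_mk.mpr ⟨c, h0, hc⟩).symm

/-- a link given by an operation -/
def RepLink (X : Set (CP n)) {Ω : Type} (ops : Ω → Set (Fin (n + 1) × Fin (n + 1) → ℂ) →
    Set (Fin (n + 1) × Fin (n + 1) → ℂ)) (x x' : CP n) : Prop :=
  ∃ (w θ w' θ' : Fin (n + 1) → ℂ) (hw : w ≠ 0) (hw' : w' ≠ 0), CP.mk w hw = x ∧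
    CP.mk w' hw' = x' ∧ ∑ i, w i * θ i = 1 ∧ ∑ i, w' i * θ' i = 1 ∧ x ∈ X ∧ x' ∈ X ∧
    ∃ o, ∀ A, outer w θ ∈ A → outer w' θ' ∈ ops o A

variable {ι κ : Type} [Fintype κ] {p : ι → MvPolynomial (Fin (n + 1)) ℂ}
  {q : κ → MvPolynomial (Fin (n + 1)) ℂ}

theorem reach_rep (hp : ∀ i, ∃ d, (p i).IsHomogeneous d)
    (hq : ∀ j, ∃ d, (q j).IsHomogeneous d) {K₀ : Type} {r₀ : K₀ → ℕ}
    {Y : ∀ k, Set (Fin (r₀ k) → ℂ)} (hYa : ∀ k, AlgSet (Y k))
    {Ω : Type} {ops : Ω → Set (Fin (n + 1) × Fin (n + 1) → ℂ) →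
      Set (Fin (n + 1) × Fin (n + 1) → ℂ)}
    (hlink : ∀ A M M', M ∈ A → Link (QA (PT p) (QT q)) (YT Y) M M' → ∃ o, M' ∈ ops o A)
    {L : CP n → CP n → Prop}
    (hL : ∀ x x', L x x' → Linked (QP p q) Y x x' ∨ RepLink (QP p q) ops x x' ∨
      ∀ (v η v' η' : Fin (n + 1) → ℂ) (hv : v ≠ 0) (hv' : v' ≠ 0), CP.mk v hv = x →
        CP.mk v' hv' = x' → ∑ i, v i * η i = 1 → ∑ i, v' i * η' i = 1 → ∀ A, outer v η ∈ A →
          ∃ o, outer v' η' ∈ ops o A)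
    {v₀ η₀ : Fin (n + 1) → ℂ} {hv₀ : v₀ ≠ 0} (hX₀ : CP.mk v₀ hv₀ ∈ QP p q)
    (h₀ : ∑ i, v₀ i * η₀ i = 1) {x : CP n} (h : Relation.ReflTransGen L (CP.mk v₀ hv₀) x) :
    ∀ (v η : Fin (n + 1) → ℂ) (hv : v ≠ 0), CP.mk v hv = x → ∑ i, v i * η i = 1 →
      ∃ l, outer v η ∈ seqSet ops (outer v₀ η₀) l := by
  have hlinks : ∀ (M₁ M : Fin (n + 1) × Fin (n + 1) → ℂ) (l : List Ω),
      M₁ ∈ seqSet ops (outer v₀ η₀) l →
      Relation.ReflTransGen (Link (QA (PT p) (QT q)) (YT Y)) M₁ M →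
      ∃ l', M ∈ seqSet ops (outer v₀ η₀) l' := by
    intro M₁ M l h1 h
    induction h with
    | refl => exact ⟨l, h1⟩
    | tail _ hl ih =>
      obtain ⟨l, hl'⟩ := ih
      obtain ⟨o, ho⟩ := hlink _ _ _ hl' hl
      exact ⟨o :: l, ho⟩
  have hmove : ∀ (v η v' η' : Fin (n + 1) → ℂ) (hv : v ≠ 0) (hv' : v' ≠ 0),
      CP.mk v hv = CP.mk v' hv' → CP.mk v hv ∈ QP p q → ∑ i, v i * η i = 1 →
      ∑ i, v' i * η' i = 1 → ∀ l : List Ω, outer v η ∈ seqSet ops (outer v₀ η₀) l →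
      ∃ l', outer v' η' ∈ seqSet ops (outer v₀ η₀) l' := by
    intro v η v' η' hv hv' hvv hX hd hd' l hl
    obtain ⟨η'', h1, h2⟩ := outer_smul (hv := hv) (hv' := hv') hd' hvv
    rw [h2]
    exact hlinks _ _ l hl (Relation.ReflTransGen.single (fibre_link hp hq Y hX hd h1))
  induction h with
  | refl =>
    intro v η hv hx hd
    exact hmove v₀ η₀ v η hv₀ hv hx.symm hX₀ h₀ hd [] rfl
  | @tail y z _ hl ih =>
    intro v η hv hx hd
    obtain ⟨v₁, hv₁, hy⟩ := mk_surj y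
    obtain ⟨l, hlm⟩ := ih v₁ (dual v₁) hv₁ hy (dot_dual hv₁)
    rcases hL _ _ hl with hl | hl | hl
    · subst hy
      have hX1 : CP.mk v₁ hv₁ ∈ QP p q := by
        obtain ⟨k, φ, hφ, hφX, ⟨b, hb⟩, -⟩ := hl
        rw [← hb]
        exact hφX b
      exact hlinks _ _ l hlm (reach_lift hp hq hYa hX1 (dot_dual hv₁)
        (Relation.ReflTransGen.single hl) v η hv hx hd)
    · obtain ⟨w, θ, w', θ', hw, hw', e1, e2, e3, e4, e5, e6, o, ho⟩ := hl
      obtain ⟨l₁, hl₁⟩ := hmove v₁ (dual v₁) w θ hv₁ hw (by rw [hy, e1])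
        (by rw [hy]; exact e5) (dot_dual hv₁) e3 l hlm
      have h3 : outer w' θ' ∈ seqSet ops (outer v₀ η₀) (o :: l₁) := ho _ hl₁
      exact hmove w' θ' v η hw' hv (by rw [e2, hx]) (by rw [e2]; exact e6) e4 hd _ h3
    · obtain ⟨o, ho⟩ := hl v₁ (dual v₁) v η hv₁ hv hy hx (dot_dual hv₁) hd _ hlm
      exact ⟨o :: l, ho⟩

/-- the maps from a glued variety give operations -/
theorem repLink_of_glue {I : Type} [Finite I] {r : ℕ} {Y : I → Set (Fin r → ℂ)}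
    {R : I → I → Set ((Fin r → ℂ) × (Fin r → ℂ))} {i₀ : I} (hYa : ∀ i, AlgSet (Y i))
    (hR : ∀ i j, ∀ z ∈ R i j, z.1 ∈ Y i ∧ z.2 ∈ Y j) (hp : ∀ i, ∃ d, (p i).IsHomogeneous d)
    (hq : ∀ j, ∃ d, (q j).IsHomogeneous d) {x x' : CP n}
    (h : GlueLinked (QP p q) Y R i₀ x x') :
    ∃ d : ℕ, RepLink (QP p q) (fun d A => glueSet (PT p) (QT q) (HM n) Y R i₀ d A) x x' ∧
      0 ≤ d := by
  classical
  obtain ⟨φ, hφ, hX, ⟨y, rfl⟩, ⟨y', rfl⟩⟩ := h
  choose F hF using fun i => lift_regular (hYa i) (hφ.regular i)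
  have hFm : ∀ i, ∀ z ∈ Y i, (fun b => MvPolynomial.eval z (F i b)) ∈ QA (PT p) (QT q) := by
    intro i z hz
    obtain ⟨v, η, hv, h1, h2, h3⟩ := hF i ⟨z, hz⟩
    have h4 : (fun b => MvPolynomial.eval z (F i b)) = outer v η := h3
    rw [h4]
    exact outer_mem hp hq (hv := hv) h2 (by rw [← h1]; exact hX i ⟨z, hz⟩)
  have hbz := fun i => exists_bezout (hYa i) (fun j => MvPolynomial.bind₁ (F i) (QT q j))
    (fun z hz => by
      obtain ⟨j, hj⟩ := (hFm i z hz).2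
      refine ⟨j, ?_⟩
      have : MvPolynomial.eval z (MvPolynomial.bind₁ (F i) (QT q j)) =
          MvPolynomial.eval (fun b => MvPolynomial.eval z (F i b)) (QT q j) :=
        MvPolynomial.eval₂Hom_bind₁ _ _ _ _
      rw [this]
      exact hj)
  choose g hg using hbz
  choose d₁ hd₁ using fun i => exists_bev_fin (F i)
  choose d₂ hd₂ using fun i => exists_bev_fin (g i)
  haveI := Fintype.ofFinite I
  let d : ℕ := Finset.univ.sup (fun i => max (d₁ i) (d₂ i))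
  have hd : ∀ i, max (d₁ i) (d₂ i) ≤ d := fun i =>
    Finset.le_sup (f := fun i => max (d₁ i) (d₂ i)) (Finset.mem_univ i)
  choose c hc using fun i => hd₁ i d ((le_max_left _ _).trans (hd i))
  choose c' hc' using fun i => hd₂ i d ((le_max_right _ _).trans (hd i))
  have hfc : ∀ i z, (fun l => bev (c i l) z) = fun b => MvPolynomial.eval z (F i b) :=
    fun i z => funext (fun l => (hc i l z).symm)
  obtain ⟨w, θ, hw, e1, e2, e3⟩ := hF i₀ y
  obtain ⟨w', θ', hw', e1', e2', e3'⟩ := hF i₀ y'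
  refine ⟨d, ⟨w, θ, w', θ', hw, hw', e1.symm, e1'.symm, e2, e2', hX _ _, hX _ _, d,
    fun A hA => ?_⟩, Nat.zero_le _⟩
  refine ⟨c, c', fun i z hz k => ?_, fun i z hz => ?_, fun i j z hz h hh => ?_, y.1, y.2, y'.1,
    y'.2, ?_, ?_⟩
  · rw [hfc]
    exact (hFm i z hz).1 k
  · rw [hfc, ← hg i z hz]
    refine Finset.sum_congr rfl (fun j _ => ?_)
    rw [← hc']
    congr 1
    exact (MvPolynomial.eval₂Hom_bind₁ _ _ _ _).symm
  · obtain ⟨hz1, hz2⟩ := hR i j z hz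
    rw [hfc, hfc]
    obtain ⟨v, η, hv, h1, h2, h3⟩ := hF i ⟨z.1, hz1⟩
    obtain ⟨v', η', hv', h1', h2', h3'⟩ := hF j ⟨z.2, hz2⟩
    have h4 : (fun b => MvPolynomial.eval z.1 (F i b)) = outer v η := h3
    have h4' : (fun b => MvPolynomial.eval z.2 (F j b)) = outer v' η' := h3'
    rw [h4, h4']
    have h5 : CP.mk v hv = CP.mk v' hv' := by
      rw [← h1, ← h1']
      exact hφ.compat i j z hz hz1 hz2
    obtain ⟨a, _, ha⟩ := mk_eq_mk.mp h5.symm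
    exact HM_outer ⟨a, ha⟩ h2 h hh
  · show (fun l => bev (c i₀ l) y.1) ∈ A
    rw [hfc, e3]
    exact hA
  · show (fun l => bev (c i₀ l) y'.1) = _
    rw [hfc, e3']

theorem good_glue (𝒱 : PClass) {I : Type} [Finite I] {r : ℕ} {Y : I → Set (Fin r → ℂ)}
    {R : I → I → Set ((Fin r → ℂ) × (Fin r → ℂ))} {i₀ : I} (hYa : ∀ i, AlgSet (Y i))
    (hYc : IsPathConnected (Y i₀)) (hp : ∀ i, ∃ d, (p i).IsHomogeneous d)
    (hq : ∀ j, ∃ d, (q j).IsHomogeneous d) (hV : GlueImagesIn (QP p q) Y R i₀ 𝒱.C)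
    {ρ : C(QA (PT p) (QT q), QP p q)}
    (hρ : ∀ (v η : Fin (n + 1) → ℂ) (hv : v ≠ 0) (h : outer v η ∈ QA (PT p) (QT q)),
        ∑ i, v i * η i = 1 → (ρ ⟨outer v η, h⟩).1 = CP.mk v hv) (d : ℕ)
    {A : Set (Fin (n + 1) × Fin (n + 1) → ℂ)} (hA : GoodSet 𝒱 (QA (PT p) (QT q)) ρ A) :
    GoodSet 𝒱 (QA (PT p) (QT q)) ρ (glueSet (PT p) (QT q) (HM n) Y R i₀ d A) := by
  refine goodSet_glue 𝒱 ρ (HM n) Y R i₀ (hYa i₀) hYc (fun f hf hfR y => ?_) d hA
  refine hV (fun i => ρ.comp (pmap (f i) (hf i))) ⟨fun i => isRegular_rho hp hq hρ (f i) (hf i),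
    fun i j z hz h1 h2 => ?_⟩ y
  obtain ⟨v, η, hv, k1, k2, k3⟩ := exists_outer hp hq (hf i z.1 h1)
  obtain ⟨v', η', hv', k1', k2', k3'⟩ := exists_outer hp hq (hf j z.2 h2)
  have e1 : pmap (f i) (hf i) ⟨z.1, h1⟩ = ⟨outer v η, outer_mem hp hq k2 k1⟩ := Subtype.ext k3
  have e2 : pmap (f j) (hf j) ⟨z.2, h2⟩ = ⟨outer v' η', outer_mem hp hq k2' k1'⟩ :=
    Subtype.ext k3'
  show (ρ (pmap (f i) (hf i) ⟨z.1, h1⟩)).1 = (ρ (pmap (f j) (hf j) ⟨z.2, h2⟩)).1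
  rw [e1, e2, hρ v η hv _ k2, hρ v' η' hv' _ k2']
  refine mk_eq_of_smul ?_
  have hη : η' ≠ 0 := by
    rintro rfl
    simp at k2'
  refine outer_HM (η := η) hη (fun g hg => ?_)
  have h3 := hfR i j z hz g hg
  have k4 : (fun l => MvPolynomial.eval z.1 (f i l)) = outer v η := k3
  have k4' : (fun l => MvPolynomial.eval z.2 (f j l)) = outer v' η' := k3'
  rwa [k4, k4'] at h3

/-- chains of images of test varieties, closures of entire curves, images of tori, and images of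
glued test varieties -/
theorem main_glue (𝒱 : PClass)
    (hab : ∀ (G : Type) [Group G], (∀ a b : G, a * b = b * a) → 𝒱.C G)
    (hp : ∀ i, ∃ d, (p i).IsHomogeneous d)
    (hq : ∀ j, ∃ d, (q j).IsHomogeneous d) (hs : IsSmooth (QP p q)) (hc : IsConnected (QP p q))
    {K₀ : Type} [Countable K₀] {r₀ : K₀ → ℕ} {Y₀ : ∀ k, Set (Fin (r₀ k) → ℂ)}
    (hYa₀ : ∀ k, IsAlgebraic' (Y₀ k)) (hYc₀ : ∀ k, IsPathConnected (Y₀ k))
    {K : Type} [Countable K] {I : K → Type} [∀ k, Finite (I k)] {r : K → ℕ}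
    {Y : ∀ k, I k → Set (Fin (r k) → ℂ)}
    {R : ∀ k, I k → I k → Set ((Fin (r k) → ℂ) × (Fin (r k) → ℂ))} {i₀ : ∀ k, I k}
    (hYa : ∀ k i, IsAlgebraic' (Y k i)) (hYc : ∀ k, IsPathConnected (Y k (i₀ k)))
    (hR : ∀ k i j, ∀ z ∈ R k i j, z.1 ∈ Y k i ∧ z.2 ∈ Y k j)
    (hY₀ : ImagesIn (QP p q) Y₀ 𝒱.C)
    (hY : ∀ k, GlueImagesIn (QP p q) (Y k) (R k) (i₀ k) 𝒱.C)
    {x₀ : CP n} (hx₀ : x₀ ∈ QP p q)
    (hthin : ¬ IsThin (QP p q) {x | Relation.ReflTransGen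
      (fun x x' => MixedLinked p q Y₀ x x' ∨
        ∃ k, GlueLinked (QP p q) (Y k) (R k) (i₀ k) x x') x₀ x})
    (x : QP p q) : Virtually 𝒱.C (FundamentalGroup (QP p q) x) := by
  refine main_ops 𝒱 hp hq hs hc (Ω := Code ⊕ ((Option K₀ × ℕ) ⊕ (K × ℕ)))
    (ops := fun o A => Sum.elim (fun c => parcSet p q c A)
      (Sum.elim (fun b => stepSet (PT p) (QT q) (YT Y₀ b.1) b.2 A)
      (fun b => glueSet (PT p) (QT q) (HM n) (Y b.1) (R b.1) (i₀ b.1) b.2 A)) o)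
    (fun ρ hρ o A hA => ?_) hx₀ (fun v₀ η₀ hv₀ hv h₀ x hx => ?_) hthin x
  · rcases o with c | ⟨k, d⟩ | ⟨k, d⟩
    · exact goodSet_parc' 𝒱 hp hq hρ c hA (fun k φ y =>
        𝒱.of_surjective (FundamentalGroup.map φ y).rangeRestrict
          (MonoidHom.rangeRestrict_surjective _) (hab _ (comm_TT k y)))
    · refine goodSet_step 𝒱 ρ (algSet_YT hYa₀ k) ?_ ?_ d hA
      · rcases k with _ | k
        · exact isPathConnected_univ
        · exact hYc₀ k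
      · rcases k with _ | k
        · intro f hf y
          have : ContractibleSpace (YT Y₀ none) :=
            (Homeomorph.Set.univ (Fin 1 → ℂ)).contractibleSpace
          have := subsingleton_pi1 y
          exact 𝒱.of_surjective (FundamentalGroup.map (ρ.comp (pmap f hf)) y).rangeRestrict
            (MonoidHom.rangeRestrict_surjective _) (class_subsingleton 𝒱)
        · intro f hf y
          exact hY₀ k (ρ.comp (pmap f hf)) (isRegular_rho hp hq hρ f hf) y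
    · exact good_glue 𝒱 (hYa k) (hYc k) hp hq (hY k) hρ d hA
  · subst hv
    refine reach_rep hp hq hYa₀ (fun A M M' hM hl => by
        obtain ⟨b, hb⟩ := step_of_link hYa₀ hM hl
        exact ⟨Sum.inr (Sum.inl b), hb⟩)
      (fun x x' h => ?_) hx₀ h₀ hx
    rcases h with (h | h | h) | ⟨k, h⟩
    · refine Or.inr (Or.inr (fun v η v' η' hv hv' hx hx' hd hd' A hA => ?_))
      obtain ⟨c, hc⟩ := step_of_plink hp hq (hv' := hv') (plink_of_ent hp hq h hv hv' hx hx')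
        (by rw [hx']; exact h.2.1) hA hd hd'
      exact ⟨Sum.inl c, hc⟩
    · refine Or.inr (Or.inr (fun v η v' η' hv hv' hx hx' hd hd' A hA => ?_))
      obtain ⟨c, hc⟩ := step_of_plink hp hq (hv' := hv')
        (plink_of_torusLinked hp hq h hv hv' hx hx')
        (by rw [hx']; exact h.2.1) hA hd hd'
      exact ⟨Sum.inl c, hc⟩
    · exact Or.inl h
    · obtain ⟨-, ⟨w, θ, w', θ', hw, hw', e1, e2, e3, e4, e5, e6, d, hd⟩, -⟩ :=
        repLink_of_glue (hYa k) (hR k) hp hq h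
      exact Or.inr (Or.inl ⟨w, θ, w', θ', hw, hw', e1, e2, e3, e4, e5, e6,
        Sum.inr (Sum.inr (k, d)), hd⟩)

end

end Pool.Agent.X325.HS
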